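import Pool.Agent.H46.GP.Half
import Pool.Agent.H26.DT.Main

/-!
# Phases of the periods of all triples
-/

noncomputable section

namespace GD

open Complex Module NumberField

variable {V : Type*} [AddCommGroup V] [Module ℚ V] {cls : ℂ → V}

/-- Relations between classes are preserved by complex conjugation. -/
theorem cls_conj_rel (hΓ : GammaSpec V cls) {α : Type*} (s : Finset α) (x : α → ℂ) (q : α → ℚ)
    (hx : ∀ i ∈ s, x i ≠ 0) (h : ∑ i ∈ s, q i • cls (x i) = 0) :
    ∑ i ∈ s, q i • cls (starRingEnd ℂ (x i)) = 0 := by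
  classical
  obtain ⟨N, hN0, n, hn⟩ : ∃ N : ℕ, N ≠ 0 ∧ ∃ n : α → ℤ, ∀ i ∈ s, (N : ℚ) * q i = n i := by
    refine ⟨∏ i ∈ s, (q i).den, Finset.prod_ne_zero_iff.2 fun i _ => (q i).den_nz,
      fun i => (∏ j ∈ s.erase i, ((q j).den : ℤ)) * (q i).num, ?_⟩
    intro i hi
    rw [← Finset.mul_prod_erase s (fun i => (q i).den) hi]
    push_cast
    have h1 : ((q i).den : ℚ) * q i = (q i).num := by
      rw [mul_comm]
      exact Rat.mul_den_eq_num (q i)
    rw [mul_comm ((q i).den : ℚ), mul_assoc, h1]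
  have hN : (N : ℚ) ≠ 0 := by exact_mod_cast hN0
  have hsum : ∀ y : α → ℂ, (∀ i ∈ s, y i ≠ 0) →
      cls (∏ i ∈ s, y i ^ n i) = (N : ℚ) • ∑ i ∈ s, q i • cls (y i) := by
    intro y hy
    rw [cls_prod hΓ s _ fun i hi => zpow_ne_zero _ (hy i hi), Finset.smul_sum]
    refine Finset.sum_congr rfl fun i hi => ?_
    rw [cls_zpow hΓ (hy i hi), smul_smul, hn i hi]
  have hyne : ∀ i ∈ s, starRingEnd ℂ (x i) ≠ 0 := fun i hi => (map_ne_zero _).2 (hx i hi)
  have h1 : cls (∏ i ∈ s, x i ^ n i) = 0 := by rw [hsum x hx, h, smul_zero]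
  have h2 : (∏ i ∈ s, x i ^ n i) ≠ 0 :=
    Finset.prod_ne_zero_iff.2 fun i hi => zpow_ne_zero _ (hx i hi)
  have h3 := isAlgebraic_conj ((hΓ.zero_iff _ h2).1 h1)
  have h4 : starRingEnd ℂ (∏ i ∈ s, x i ^ n i) = ∏ i ∈ s, (starRingEnd ℂ (x i)) ^ n i := by
    rw [map_prod]
    exact Finset.prod_congr rfl fun i _ => map_zpow₀ _ _ _
  rw [h4] at h3
  have h5 : (∏ i ∈ s, (starRingEnd ℂ (x i)) ^ n i) ≠ 0 :=
    Finset.prod_ne_zero_iff.2 fun i hi => zpow_ne_zero _ (hyne i hi)
  have h6 := (hΓ.zero_iff _ h5).2 h3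
  rw [hsum _ hyne] at h6
  exact (smul_eq_zero.1 h6).resolve_left hN

theorem cls_conj_of_phase (hΓ : GammaSpec V cls) {z : ℂ} (h : AlgPhase z) :
    cls (starRingEnd ℂ z) = cls z := (cls_of_sim hΓ (algPhase_iff.1 h)).symm

/-- The Legendre relation with multiplicity two gives the phase. -/
theorem phase_of_sq {z : ℂ} {N : ℕ} (hz : z ≠ 0)
    (h : Sim (z * z) ((2 * Real.pi * I) ^ N)) : AlgPhase z := by
  rw [algPhase_iff]
  have hc : starRingEnd ℂ z ≠ 0 := (map_ne_zero _).2 hz
  apply Sim.of_sq hz hc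
  have h1 : Sim (starRingEnd ℂ z ^ 2) ((2 * Real.pi * I) ^ N) := by
    have h2 := isAlgebraic_conj h.2.2
    rw [map_div₀, map_mul, map_pow, map_mul, map_mul, Complex.conj_ofReal, Complex.conj_I,
      map_ofNat] at h2
    refine ⟨pow_ne_zero _ hc, h.2.1, ?_⟩
    have h3 : starRingEnd ℂ z ^ 2 / (2 * (Real.pi : ℂ) * I) ^ N =
        (-1) ^ N * (starRingEnd ℂ z * starRingEnd ℂ z / (2 * (Real.pi : ℂ) * -I) ^ N) := by
      have h4 : (2 * (Real.pi : ℂ) * -I) ^ N = (-1) ^ N * (2 * (Real.pi : ℂ) * I) ^ N := by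
        rw [← mul_pow]
        ring_nf
      have h5 : ((-1 : ℂ)) ^ N * (-1) ^ N = 1 := by
        rw [← mul_pow]
        norm_num
      have h6 : ((-1 : ℂ)) ^ N ≠ 0 := pow_ne_zero _ (by norm_num)
      rw [h4, pow_two]
      field_simp
    rw [h3]
    have h7 : IsAlgebraic ℚ ((-1 : ℂ) ^ N) := by
      have := isAlgebraic_algebraMap (R := ℚ) (A := ℂ) ((-1 : ℚ) ^ N)
      simpa using this
    exact h7.mul h2
  rw [pow_two]
  exact h.trans h1.symm

/-- Phases for the data. -/
theorem Datum.phase (hΓ : GammaSpec V cls) {C : Str → Prop} {F : Type} [Field F] [NumberField F]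
    {e : F →+* ℂ} (hDet : DetPhaseFor C e) {K : Type} [Field K] [NumberField K] (i : K →+* F)
    (hGal : IsGalois ℚ K) (hcyc : IsCyclic (K ≃ₐ[ℚ] K)) (D : Datum C K) (hleg : D.Leg)
    {τ : D.L →+* ℂ} {z : ℂ} (hz : IsDetPeriod D.ι τ z) : cls (starRingEnd ℂ z) = cls z := by
  obtain ⟨hG, hc⟩ := sub_cyclic D.j hGal hcyc
  by_cases him : ∃ x, (((e.comp i).comp D.j) x).im ≠ 0
  · exact cls_conj_of_phase hΓ
      (hDet D.L (i.comp D.j) him hG hc D.S D.mem D.M D.simple D.ι D.central τ z hz)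
  · push Not at him
    have hreal : ComplexEmbedding.conjugate τ = τ := by
      obtain ⟨g, hg⟩ := exists_aut ((e.comp i).comp D.j) τ
      ext x
      rw [ComplexEmbedding.conjugate_coe_eq, hg]
      exact Complex.conj_eq_iff_im.2 (him _)
    obtain ⟨-, N, hN⟩ := hleg
    have h1 := (hN τ).2 z z hz (by rw [hreal]; exact hz)
    exact cls_conj_of_phase hΓ (phase_of_sq (left_ne_zero_of_mul h1.1) h1)

/-- The phase relation for a family. -/
theorem core_phase (hΓ : GammaSpec V cls) {C : Str → Prop} {R : Str} {F : Type} [Field F]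
    [NumberField F] (e : F →+* ℂ) {d : ℕ} [NeZero d] (he : ∀ x, e x ∈ cyc d)
    (hDet : DetPhaseFor C e) (f : Fam R F)
    (hform : ∀ (K : Type) [Field K] [NumberField K] (i : K →+* F), IsGalois ℚ K →
      FormFor cls C f i) (l : (ZMod d)ˣ) :
    cls (f.c (phi e he l)) - cls (starRingEnd ℂ (f.c (phi e he l))) = 0 := by
  classical
  have hodd : ∀ l, cls (f.c (phi e he l)) + cls (f.c (phi e he (-l)))
      = (R.wt : ℚ) • cls ((Real.pi : ℝ) : ℂ) := by
    intro l
    have hab := isAbelian_of e he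
    rw [← conj_phi]
    exact odd_of_form hΓ f (hform F (RingHom.id F) inferInstance) _
  have hodd' : ∀ l, cls (starRingEnd ℂ (f.c (phi e he l))) +
      cls (starRingEnd ℂ (f.c (phi e he (-l)))) = (R.wt : ℚ) • cls ((Real.pi : ℝ) : ℂ) := by
    intro l
    have hpi : ((Real.pi : ℝ) : ℂ) ≠ 0 := by exact_mod_cast Real.pi_ne_zero
    have h1 := cls_conj_rel hΓ (Finset.univ : Finset (Fin 3))
      ![f.c (phi e he l), f.c (phi e he (-l)), ((Real.pi : ℝ) : ℂ)] ![1, 1, -(R.wt : ℚ)]
      (by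
        intro i _
        fin_cases i
        · exact f.c_ne _
        · exact f.c_ne _
        · exact hpi)
      (by
        rw [Fin.sum_univ_three]
        simp only [Matrix.cons_val_zero, Matrix.cons_val_one, Matrix.cons_val, one_smul, neg_smul]
        rw [hodd, add_neg_cancel])
    rw [Fin.sum_univ_three] at h1
    simp only [Matrix.cons_val_zero, Matrix.cons_val_one, Matrix.cons_val, one_smul, neg_smul,
      Complex.conj_ofReal] at h1
    exact add_neg_eq_zero.1 h1
  let D : (ZMod d)ˣ → V := fun l =>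
    cls (f.c (phi e he l)) - cls (starRingEnd ℂ (f.c (phi e he l)))
  have hD : ∀ l, D l = cls (f.c (phi e he l)) - cls (starRingEnd ℂ (f.c (phi e he l))) :=
    fun l => rfl
  suffices hz : ∀ l, D l = 0 from hz l
  apply char_zero D
  · intro l
    rw [hD, hD, eq_neg_iff_add_eq_zero]
    have h1 : cls (f.c (phi e he (-l))) - cls (starRingEnd ℂ (f.c (phi e he (-l)))) +
        (cls (f.c (phi e he l)) - cls (starRingEnd ℂ (f.c (phi e he l)))) =
        (cls (f.c (phi e he l)) + cls (f.c (phi e he (-l)))) -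
        (cls (starRingEnd ℂ (f.c (phi e he l))) + cls (starRingEnd ℂ (f.c (phi e he (-l))))) := by
      abel
    rw [h1, hodd, hodd', sub_self]
  · intro χ hχ
    by_cases hN : ∀ l, phi e he l = e → l ∈ χ.ker
    · left
      obtain ⟨K, _, _, i, hi, hGal, hcyc⟩ := exists_subfield e he χ.ker hN (cyclic_quot_ker χ)
      obtain ⟨w, hw'⟩ := ker_card e he i hi
      obtain ⟨n, Dt, hleg, hDt⟩ := hform K i hGal
      have hleg' := hleg
      choose hex N hNk using hleg
      choose z hz using hex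
      intro l
      have h1 : (∑ σ ∈ Finset.univ.filter (fun σ : F →+* ℂ => σ.comp i = (phi e he l).comp i),
          cls (f.c σ)) = ∑ k, (Dt k).q • cls (z k (((phi e he l).comp i).comp (Dt k).j)) :=
        (hDt ((phi e he l).comp i)).2 (fun k => z k _) (fun k => hz k _)
      have h2 : (∑ σ ∈ Finset.univ.filter (fun σ : F →+* ℂ => σ.comp i = (phi e he l).comp i),
          cls (starRingEnd ℂ (f.c σ))) =
          ∑ k, (Dt k).q • cls (starRingEnd ℂ (z k (((phi e he l).comp i).comp (Dt k).j))) := by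
        have h3 := cls_conj_rel hΓ
          ((Finset.univ.filter (fun σ : F →+* ℂ =>
            σ.comp i = (phi e he l).comp i)).disjSum (Finset.univ : Finset (Fin n)))
          (Sum.elim f.c (fun k => z k (((phi e he l).comp i).comp (Dt k).j)))
          (Sum.elim (fun _ => 1) (fun k => -(Dt k).q))
          (by
            rintro (s | k) _
            · exact f.c_ne s
            · exact (detPeriod_trace (Dt k).ι (Dt k).simple.sub.le (hz k _)).1)
          (by
            rw [Finset.sum_disjSum]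
            simp only [Sum.elim_inl, Sum.elim_inr, one_smul, neg_smul, Finset.sum_neg_distrib]
            rw [h1, add_neg_cancel])
        rw [Finset.sum_disjSum] at h3
        simp only [Sum.elim_inl, Sum.elim_inr, one_smul, neg_smul, Finset.sum_neg_distrib] at h3
        exact add_neg_eq_zero.1 h3
      have h3 : ∀ k, cls (starRingEnd ℂ (z k (((phi e he l).comp i).comp (Dt k).j))) =
          cls (z k (((phi e he l).comp i).comp (Dt k).j)) := fun k =>
        Datum.phase hΓ hDet i hGal hcyc (Dt k) (hleg' k) (hz k _)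
      simp only [h3] at h2
      simp only [hD, Finset.sum_sub_distrib]
      rw [ker_sum e he i hi hw' (fun σ => cls (f.c σ)) l,
        ker_sum e he i hi hw' (fun σ => cls (starRingEnd ℂ (f.c σ))) l, h1, h2, sub_self]
    · right
      push Not at hN
      obtain ⟨ν, hν, hν'⟩ := hN
      exact ⟨ν, hν', fun l => by rw [hD, hD, phi_mul_of_eq e he l ν hν]⟩

end GD
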