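import Pool.Agent.H26.DT.Defs2

/-!
# Phases of periods: definitions

Everything is inside the structures `Str` (Betti, de Rham and Hodge data) of the earlier files.
-/

noncomputable section

namespace GD

open Complex

/-- `J` is an isomorphism of the substructure `M` with its complex conjugate: a semilinear
injective operator on the complexification of `M` which preserves `M`, the de Rham vectors and the
Hodge pieces. For `M ⊂ H^m(X)` and `X` over a real field of algebraic numbers, the composite of
the complex conjugation of the coefficients and of the Frobenius at infinity is such an operator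
if the Frobenius preserves `M`. -/
structure IsRefl (S : Str) (M : Submodule ℚ S.W) (J : S.cx M →ₛₗ[starRingEnd ℂ] S.cx M) :
    Prop where
  inj : Function.Injective J
  betti : ∀ x : S.cx M, (x : S.W) ∈ M → (J x : S.W) ∈ M
  deRham : ∀ x : S.cx M, (x : S.W) ∈ S.D → (J x : S.W) ∈ S.D
  hodge : ∀ p, ∀ x : S.cx M, (x : S.W) ∈ S.hodge p → (J x : S.W) ∈ S.hodge p

/-- `M` is isomorphic to its complex conjugate. -/
def SelfConj (S : Str) (M : Submodule ℚ S.W) : Prop := ∃ J, IsRefl S M J

/-- The phase `z / |z|` is an algebraic number. -/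
def AlgPhase (z : ℂ) : Prop := z ≠ 0 ∧ IsAlgebraic ℚ (z / (‖z‖ : ℂ))

/-- All periods of all admissible triples with multiplication by `F` in the structures of the
class `C` have algebraic phases. -/
def PhaseFor (C : Str → Prop) (F : Type) [Field F] [NumberField F] : Prop :=
  ∀ R, C R → ∀ A : Adm R F, ∀ σ z, A.IsPeriod σ z → AlgPhase z

/-- All determinants of periods of the simple constituents `M` of the structures of the class `C`
over the imaginary cyclic fields `K` with an embedding `i` in `F` which act through the centre of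
the endomorphisms of `M` have algebraic phases. -/
def DetPhaseFor (C : Str → Prop) {F : Type} [Field F] (e : F →+* ℂ) : Prop :=
  ∀ (K : Type) [Field K] [NumberField K] (i : K →+* F), (∃ x, (e (i x)).im ≠ 0) →
    IsGalois ℚ K → IsCyclic (K ≃ₐ[ℚ] K) →
    ∀ S, C S → ∀ M : Submodule ℚ S.W, IsSimple S M →
      ∀ ι : K →+* Module.End ℂ (S.cx M), IsCentral ι → ∀ τ z, IsDetPeriod ι τ z → AlgPhase z

/-- The phases of the periods of triples in tensor powers with multiplication by imaginary cyclic
fields `K` with an embedding `i` in `F` are algebraic. -/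
def PowPhaseFor (C : Str → Prop) {F : Type} [Field F] (e : F →+* ℂ) : Prop :=
  ∀ (K : Type) [Field K] [NumberField K] (i : K →+* F), (∃ x, (e (i x)).im ≠ 0) →
    IsGalois ℚ K → IsCyclic (K ≃ₐ[ℚ] K) →
    ∀ S, C S → ∀ (n : ℕ) (T : Str), n * Module.finrank ℚ K ≤ Module.finrank ℚ S.B →
      PowOf S n T → ∀ A : Adm T K, ∀ σ z, A.IsPeriod σ z → AlgPhase z

/-- Determinants of the simple constituents `M` of the structures of the class `C` over the
imaginary cyclic fields `K` with an embedding `i` in `F` which act through the centre of the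
endomorphisms of `M`: `P` holds for all of them. -/
def AllDet (C : Str → Prop) {F : Type} [Field F] (e : F →+* ℂ)
    (P : ∀ (K : Type) [Field K] [NumberField K] (_ : K →+* ℂ) (S : Str) (M : Submodule ℚ S.W)
      (_ : K →+* Module.End ℂ (S.cx M)), Prop) : Prop :=
  ∀ (K : Type) [Field K] [NumberField K] (i : K →+* F), (∃ x, (e (i x)).im ≠ 0) →
    IsGalois ℚ K → IsCyclic (K ≃ₐ[ℚ] K) →
    ∀ S, C S → ∀ M : Submodule ℚ S.W, IsSimple S M →
      ∀ ι : K →+* Module.End ℂ (S.cx M), IsCentral ι → P K (e.comp i) S M ι

/-- The Gross-Deligne relation between the absolute values for the determinant of `M` over `K`, at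
the conductor. -/
def DetNormRelation {S : Str} {M : Submodule ℚ S.W} {K : Type} [Field K]
    (ι : K →+* Module.End ℂ (S.cx M)) (e : K →+* ℂ) : Prop :=
  ∀ (d : ℕ) [NeZero d], d = conductor e → ∀ ε : ZMod d → ℚ,
    (∀ (l : (ZMod d)ˣ) (τ : K →+* ℂ), IsPhi e d l τ →
      (d : ℚ) * detType ι τ =
        ∑ a ∈ Finset.univ.erase (0 : ZMod d), ε a * (((l : ZMod d) * a).val : ℚ)) →
    ∀ (l : (ZMod d)ˣ) (τ : K →+* ℂ), IsPhi e d l τ → ∀ z, IsDetPeriod ι τ z →
      Sim ((‖z‖ : ℝ) : ℂ) (gammaProd d ε l)

/-- The phases of the determinants of constant type are algebraic. -/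
def ConstPhase {S : Str} {M : Submodule ℚ S.W} {K : Type} [Field K]
    (ι : K →+* Module.End ℂ (S.cx M)) : Prop :=
  (∃ r, ∀ τ, detType ι τ = r) → ∀ τ z, IsDetPeriod ι τ z → AlgPhase z

/-- `J` is a real structure: a semilinear operator which preserves the rational form, the de Rham
form and the Hodge pieces. For `H^m(X)`, `X` over a real field of algebraic numbers, the composite
of the complex conjugation of the coefficients and of the Frobenius at infinity. -/
structure IsReal (S : Str) (J : S.W →ₛₗ[starRingEnd ℂ] S.W) : Prop where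
  inj : Function.Injective J
  betti : ∀ x ∈ S.B, J x ∈ S.B
  deRham : ∀ x ∈ S.D, J x ∈ S.D
  hodge : ∀ p, ∀ x ∈ S.hodge p, J x ∈ S.hodge p

/-- There is an injective morphism from `M'` to `M` (an isomorphism if `M'` and `M` have the same
Hodge numbers and `M` is simple). -/
def Isom (S : Str) (M' M : Submodule ℚ S.W) : Prop :=
  ∃ g : S.cx M' →ₗ[ℂ] S.cx M, Function.Injective g ∧
    (∀ x : S.cx M', (x : S.W) ∈ M' → (g x : S.W) ∈ M) ∧
    (∀ x : S.cx M', (x : S.W) ∈ S.D → (g x : S.W) ∈ S.D) ∧
    ∀ p, ∀ x : S.cx M', (x : S.W) ∈ S.hodge p → (g x : S.W) ∈ S.hodge p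

/-- The Hodge numbers of a substructure. -/
def hodgeNum (S : Str) (M : Submodule ℚ S.W) (p : ℕ) : ℕ :=
  Module.finrank ℂ (S.cx M ⊓ S.hodge p : Submodule ℂ S.W)

end GD
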