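import Pool.Agent.H46.GP.Types
import Pool.Agent.H26.DT.Final

/-!
# Phases: final form
-/

noncomputable section

namespace GD

open Complex Module NumberField

theorem AlgPhase.of_sim {z w : ℂ} (h : Sim z w) (hw : AlgPhase w) : AlgPhase z := by
  rw [algPhase_iff] at hw ⊢
  have h1 : Sim (starRingEnd ℂ z) (starRingEnd ℂ w) := by
    refine ⟨(map_ne_zero _).2 h.1, (map_ne_zero _).2 h.2.1, ?_⟩
    have h2 := isAlgebraic_conj h.2.2
    rwa [map_div₀] at h2
  exact (h.trans hw).trans h1.symm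

theorem phase_of_det {C : Str → Prop} (hP : ∀ S, C S → Nonempty (Pol S)) {F : Type} [Field F]
    [NumberField F] (e : F →+* ℂ) (hex : ∃ d, LiesIn e d) (h : DetPhaseFor C e) :
    PhaseFor (Gen C) F := by
  classical
  intro R hR A σ z hz
  obtain ⟨p, hp⟩ := A.exists_type
  obtain ⟨f, hf, -⟩ := A.exists_fam p hp
  have hc := liesIn_conductor hex
  have : NeZero (conductor e) := ⟨hc.1.ne'⟩
  obtain ⟨l, rfl⟩ := exists_phi e hc.2 σ
  have h1 := core_phase gammaSpec e hc.2 h f (fun K _ _ i hGal => by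
    refine formFor_of gammaSpec f i (fun D => D.leg hP) (fun D τ => ?_) ?_
    · exact trOn_hOp_eig D.ι D.simple.sub D.central.isEnd τ
    · obtain ⟨n, D, hD⟩ := DT.main_formula hP hR f i hGal
      refine ⟨n, D, fun T hT χ hχ τ => ?_⟩
      have h1 := hD T hT χ hχ τ
      convert h1 using 2) l
  refine AlgPhase.of_sim (hf.period_sim hz) (algPhase_iff.2 ?_)
  exact sim_of_cls gammaSpec (f.c_ne _) ((map_ne_zero _).2 (f.c_ne _)) (sub_eq_zero.1 h1)

theorem exists_ext_emb {K F : Type} [Field K] [NumberField K] [Field F] [NumberField F]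
    (i : K →+* F) (τ : K →+* ℂ) : ∃ σ : F →+* ℂ, σ.comp i = τ := by
  let : Algebra K F := i.toAlgebra
  let : Algebra K ℂ := τ.toAlgebra
  have : Algebra.IsAlgebraic K F := by
    have : IsScalarTower ℚ K F := IsScalarTower.of_algebraMap_eq' (Subsingleton.elim _ _)
    exact Algebra.IsAlgebraic.tower_top (K := ℚ) K
  let φ : F →ₐ[K] ℂ := IsAlgClosed.lift
  exact ⟨φ.toRingHom, RingHom.ext fun x => φ.commutes x⟩

theorem det_of_phase {C : Str → Prop} (hP : ∀ S, C S → Nonempty (Pol S)) {F : Type} [Field F]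
    [NumberField F] (e : F →+* ℂ) (h : PhaseFor (Gen C) F) : DetPhaseFor C e := by
  intro K _ _ i him hGal hcyc S hS M hM ι hι τ z hz
  obtain ⟨P⟩ := hP S hS
  obtain ⟨k, r, f, hc, hp, hwt, hB, hD, hH, hs⟩ :=
    DT.exists_det (ι := ι) P hM.sub hι.isEnd hM.ne
  have h1 : Gen C r.str := gen_of_multi (Gen.base S hS) k r.str f hwt hB hD hH hs
  have h2 : Gen C (r.ext i).str := DT.gen_ext h1 i
  obtain ⟨A, hA, -⟩ := (r.ext i).fam.exists_adm
  obtain ⟨σ, rfl⟩ := exists_ext_emb i τ
  obtain ⟨z', hz'⟩ := hA.exists_period σ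
  have h3 := AlgPhase.of_sim (hA.period_sim hz').symm (h _ h2 A σ z' hz')
  exact AlgPhase.of_sim (detPeriod_sim hM.sub.le ι hz (hc _)) h3

theorem detPhase_sub {C : Str → Prop} {F K : Type} [Field F] [Field K] {e : F →+* ℂ}
    (i : K →+* F) (h : DetPhaseFor C e) : DetPhaseFor C (e.comp i) :=
  fun L _ _ j him hG hc S hS M hM ι hι => h L (i.comp j) him hG hc S hS M hM ι hι

theorem detPhase_of_pow {C : Str → Prop} (hD : HasDetPow C) {F : Type} [Field F] [NumberField F]
    {e : F →+* ℂ} (h : PowPhaseFor C e) : DetPhaseFor C e := by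
  intro K _ _ i him hG hc S hS M hM ι hι τ z hz
  obtain ⟨k, hk, f, hfc, hfp⟩ := hD K S hS M hM ι hι
  obtain ⟨A, hA, -⟩ := f.exists_adm
  obtain ⟨z', hz'⟩ := hA.exists_period τ
  have h1 := h K i him hG hc S hS (k + 1) (S.tpow k) (by
    rw [hk]
    haveI := S.finite_B
    exact Submodule.finrank_mono hM.sub.le) (powOf_tpow S k) A τ z' hz'
  exact AlgPhase.of_sim (detPeriod_sim hM.sub.le ι hz (hfc τ))
    (AlgPhase.of_sim (hA.period_sim hz').symm h1)

/-- Three equivalent forms of the phase half of the conjecture. -/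
theorem phase_forms {C : Str → Prop} (hP : ∀ S, C S → Nonempty (Pol S)) {F : Type} [Field F]
    [NumberField F] (e : F →+* ℂ) (hex : ∃ d, LiesIn e d) :
    [PhaseFor (Gen C) F, DetPhaseFor C e, PowPhaseFor C e].TFAE := by
  have h2 : PhaseFor (Gen C) F → DetPhaseFor C e := det_of_phase hP e
  have h3 : PhaseFor (Gen C) F → PowPhaseFor C e := by
    intro h K _ _ i him hG hc S hS n T _ hT A
    have hex' : ∃ d, LiesIn (e.comp i) d := by
      obtain ⟨d, hd⟩ := hex
      exact ⟨d, hd.1, fun x => hd.2 (i x)⟩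
    exact phase_of_det hP (e.comp i) hex' (detPhase_sub i (h2 h)) T
      (powOf_gen (Gen.base S hS) hT) A
  tfae_have 1 → 2 := h2
  tfae_have 2 → 1 := phase_of_det hP e hex
  tfae_have 1 → 3 := h3
  tfae_have 3 → 2 := detPhase_of_pow (hasDetPow hP)
  tfae_finish

/-- Classes in which the simple constituents are self conjugate. -/
theorem self_forms {C : Str → Prop} (hP : ∀ S, C S → Nonempty (Pol S)) {F : Type} [Field F]
    [NumberField F] (e : F →+* ℂ) (hex : ∃ d, LiesIn e d)
    (hs : AllDet C e fun _ _ _ _ S M _ => SelfConj S M) :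
    (PhaseFor (Gen C) F ↔ AllDet C e fun _ _ _ _ _ _ ι => ConstPhase ι) ∧
    (TriplesFor (Gen C) e ↔
      (AllDet C e fun _ _ _ e' _ _ ι => DetNormRelation ι e') ∧
      AllDet C e fun _ _ _ _ _ _ ι => ConstPhase ι) := by
  have h0 := phase_forms hP e hex
  have h1 : PhaseFor (Gen C) F ↔ DetPhaseFor C e := h0.out 0 1
  have h2 : DetPhaseFor C e ↔ AllDet C e fun _ _ _ _ _ _ ι => ConstPhase ι := by
    constructor
    · intro h K _ _ i him hG hc S hS M hM ι hι _
      exact h K i him hG hc S hS M hM ι hι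
    · intro h K _ _ i him hG hc S hS M hM ι hι
      obtain ⟨P⟩ := hP S hS
      rcases half ι P hM (hs K i him hG hc S hS M hM ι hι) hG hc (e.comp i) him hι with
        h3 | ⟨r, hr⟩
      · exact h3
      · exact h K i him hG hc S hS M hM ι hι ⟨r, fun τ => (hr τ).1⟩
  have hdet : TriplesFor (Gen C) e ↔ DetFor C e := (determinants_suffice C hP F e hex).out 0 1
  refine ⟨h1.trans h2, hdet.trans ?_⟩
  constructor
  · intro h
    refine ⟨?_, h2.1 ?_⟩
    · intro K _ _ i him hG hc S hS M hM ι hι d _ hd ε hε l τ hτ z hz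
      have h3 := h K i him hG hc S hS M hM ι hι d hd ε hε l τ hτ z hz
      exact ((algPhase_of_sim_real h3).sim_norm.symm).trans h3
    · intro K _ _ i him hG hc S hS M hM ι hι τ z hz
      have hexK : ∃ d, LiesIn (e.comp i) d := by
        obtain ⟨d, hd⟩ := hex
        exact ⟨d, hd.1, fun x => hd.2 (i x)⟩
      have hcK := liesIn_conductor hexK
      have hne : NeZero (conductor (e.comp i)) := ⟨hcK.1.ne'⟩
      obtain ⟨P⟩ := hP S hS
      obtain ⟨l, rfl⟩ := exists_phi (e.comp i) hcK.2 τ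
      obtain ⟨ε, hε⟩ := ex' gammaSpec (conductor (e.comp i)) (three_le hcK.2 him)
        ((finrank ℂ (eig ι (e.comp i)) * S.wt : ℕ) : ℚ)
        (fun l => (detType ι (phi (e.comp i) hcK.2 l) : ℚ)) (fun l => by
          rw [← conj_phi]
          have h4 := leg_type ι P hM.sub hι.isEnd (phi (e.comp i) hcK.2 l)
          rw [finrank_eig ι hM.sub hι.isEnd _ (e.comp i)] at h4
          exact_mod_cast h4)
      have h3 := h K i him hG hc S hS M hM ι hι (conductor (e.comp i)) rfl ε (by
        intro l' τ' hτ'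
        rw [isPhi_iff (e.comp i) hcK.2] at hτ'
        subst hτ'
        rw [sum_erase, ← hε, tsum_id]) l _ ((isPhi_iff (e.comp i) hcK.2 l _).2 rfl) z hz
      exact algPhase_of_sim_real h3
  · rintro ⟨h, h'⟩ K _ _ i him hG hc S hS M hM ι hι d _ hd ε hε l τ hτ z hz
    have h3 := h K i him hG hc S hS M hM ι hι d hd ε hε l τ hτ z hz
    exact (h2.2 h' K i him hG hc S hS M hM ι hι τ z hz).sim_norm.trans h3

end GD
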