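import Pool.Agent.H46.GP.Theta

/-!
# One half of the conjecture for self conjugate simple substructures
-/

noncomputable section

namespace GD

open Complex Module NumberField

variable {S : Str} {M : Submodule ℚ S.W}

/-! ### Phases and absolute values -/

theorem isAlgebraic_conj {x : ℂ} (h : IsAlgebraic ℚ x) : IsAlgebraic ℚ (starRingEnd ℂ x) :=
  h.algHom (starRingEnd ℂ).toRatAlgHom

theorem norm_ne {z : ℂ} (hz : z ≠ 0) : ((‖z‖ : ℝ) : ℂ) ≠ 0 := by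
  exact_mod_cast norm_ne_zero_iff.2 hz

theorem mul_conj_eq (z : ℂ) : z * starRingEnd ℂ z = ((‖z‖ : ℝ) : ℂ) ^ 2 := by
  rw [Complex.mul_conj, Complex.normSq_eq_norm_sq]
  push_cast
  rfl

theorem algPhase_iff {z : ℂ} : AlgPhase z ↔ Sim z (starRingEnd ℂ z) := by
  constructor
  · rintro ⟨hz, h⟩
    have hc : starRingEnd ℂ z ≠ 0 := (map_ne_zero _).2 hz
    have hn := norm_ne hz
    refine ⟨hz, hc, ?_⟩
    have h1 : z / starRingEnd ℂ z = (z / ((‖z‖ : ℝ) : ℂ)) ^ 2 := by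
      have h2 := mul_conj_eq z
      rw [div_pow, ← h2]
      field_simp
    rw [h1]
    exact h.pow 2
  · rintro ⟨hz, hc, h⟩
    have hn := norm_ne hz
    refine ⟨hz, ?_⟩
    have h1 : z / starRingEnd ℂ z = (z / ((‖z‖ : ℝ) : ℂ)) ^ 2 := by
      have h2 := mul_conj_eq z
      rw [div_pow, ← h2]
      field_simp
    rw [h1] at h
    exact h.of_pow (by norm_num)

theorem AlgPhase.sim_norm {z : ℂ} (h : AlgPhase z) : Sim z ((‖z‖ : ℝ) : ℂ) :=
  ⟨h.1, norm_ne h.1, h.2⟩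

theorem algPhase_of_sim_real {z : ℂ} {r : ℝ} (h : Sim z (r : ℂ)) : AlgPhase z := by
  rw [algPhase_iff]
  have h1 : Sim (starRingEnd ℂ z) (r : ℂ) := by
    refine ⟨(map_ne_zero _).2 h.1, h.2.1, ?_⟩
    have h2 := isAlgebraic_conj h.2.2
    rwa [map_div₀, Complex.conj_ofReal] at h2
  exact h.trans h1.symm

theorem Sim.of_sq {x y : ℂ} (hx : x ≠ 0) (hy : y ≠ 0) (h : Sim (x ^ 2) (y ^ 2)) : Sim x y := by
  refine ⟨hx, hy, ?_⟩
  have h1 := h.2.2
  rw [← div_pow] at h1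
  exact h1.of_pow (by norm_num)

/-! ### Transport by a reflection -/

theorem J_ne {J : S.cx M →ₛₗ[starRingEnd ℂ] S.cx M} (hJ : Function.Injective J) {x : S.cx M}
    (hx : x ≠ 0) : J x ≠ 0 := fun h => hx (hJ (h.trans (map_zero J).symm))

theorem J_lin {J : S.cx M →ₛₗ[starRingEnd ℂ] S.cx M} (hJ : Function.Injective J) {n : ℕ}
    {v : Fin n → S.W} (hv : LinearIndependent ℂ v) (hm : ∀ i, v i ∈ S.cx M) :
    LinearIndependent ℂ (fun i => (J ⟨v i, hm i⟩ : S.W)) := by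
  rw [Fintype.linearIndependent_iff]
  intro g hg
  have h1 : J (∑ i, starRingEnd ℂ (g i) • (⟨v i, hm i⟩ : S.cx M)) = 0 := by
    apply Subtype.ext
    rw [map_sum, AddSubmonoidClass.coe_finsetSum]
    rw [ZeroMemClass.coe_zero, ← hg]
    refine Finset.sum_congr rfl fun i _ => ?_
    rw [LinearMap.map_smulₛₗ, Complex.conj_conj]
    rfl
  have h2 : ∑ i, starRingEnd ℂ (g i) • (⟨v i, hm i⟩ : S.cx M) = 0 :=
    hJ (h1.trans (map_zero J).symm)
  have h3 : ∑ i, starRingEnd ℂ (g i) • v i = 0 := by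
    have h4 := congrArg Subtype.val h2
    rw [AddSubmonoidClass.coe_finsetSum] at h4
    exact h4
  intro i
  have h5 := Fintype.linearIndependent_iff.1 hv _ h3 i
  exact (map_eq_zero _).1 h5

variable {K : Type} [Field K] [NumberField K] (ι : K →+* Module.End ℂ (S.cx M))

theorem J_eig {J : S.cx M →ₛₗ[starRingEnd ℂ] S.cx M} {θ : K ≃ₐ[ℚ] K}
    (hθ : ∀ a x, J (ι a x) = ι (θ a) (J x)) {τ τ' : K →+* ℂ}
    (hτ : ∀ a, τ' (θ a) = starRingEnd ℂ (τ a)) {x : S.cx M} (hx : (x : S.W) ∈ eig ι τ) :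
    (J x : S.W) ∈ eig ι τ' := by
  rw [coe_mem_eig] at hx ⊢
  intro a
  have h1 : ι (θ (θ.symm a)) (J x) = starRingEnd ℂ (τ (θ.symm a)) • J x := by
    rw [← hθ, hx, LinearMap.map_smulₛₗ]
  rw [← hτ, AlgEquiv.apply_symm_apply] at h1
  exact h1

theorem J_Qbar {J : S.cx M →ₛₗ[starRingEnd ℂ] S.cx M}
    (hb : ∀ x : S.cx M, (x : S.W) ∈ M → (J x : S.W) ∈ M) {w : S.W}
    (hw : w ∈ Submodule.span Qbar (M : Set S.W)) (h : w ∈ S.cx M) :
    (J ⟨w, h⟩ : S.W) ∈ Submodule.span Qbar (M : Set S.W) := by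
  induction hw using Submodule.span_induction with
  | mem y hy => exact Submodule.subset_span (hb _ hy)
  | zero =>
    have : (⟨0, h⟩ : S.cx M) = 0 := rfl
    rw [this, map_zero]
    exact zero_mem _
  | add y y' hy hy' ih ih' =>
    have : (⟨y + y', h⟩ : S.cx M) = ⟨y, cx_of_Qbar hy⟩ + ⟨y', cx_of_Qbar hy'⟩ := rfl
    rw [this, map_add]
    exact add_mem (ih _) (ih' _)
  | smul c y hy ih =>
    have : (⟨c • y, h⟩ : S.cx M) = (c : ℂ) • ⟨y, cx_of_Qbar hy⟩ := rfl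
    rw [this, LinearMap.map_smulₛₗ]
    have h2 : IsAlgebraic ℚ (starRingEnd ℂ (c : ℂ)) :=
      isAlgebraic_conj (mem_algebraicClosure_iff.1 c.2)
    exact Submodule.smul_mem _ (⟨_, mem_algebraicClosure_iff.2 h2⟩ : Qbar) (ih _)

/-- A reflection transports determinants of periods. -/
theorem detPeriod_refl (hM : IsSub S M) (hι : ∀ a, IsEnd S M (ι a))
    {J : S.cx M →ₛₗ[starRingEnd ℂ] S.cx M} (hJ : IsRefl S M J) {θ : K ≃ₐ[ℚ] K}
    (hθ : ∀ a x, J (ι a x) = ι (θ a) (J x)) {τ τ' : K →+* ℂ}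
    (hτ : ∀ a, τ' (θ a) = starRingEnd ℂ (τ a)) {z : ℂ} (hz : IsDetPeriod ι τ z) :
    IsDetPeriod ι τ' (starRingEnd ℂ z) := by
  obtain ⟨n, v, ω, Φ, hv, hvs, hω, hωs, hvB, hωD, hΦ, rfl⟩ := hz
  have hve : ∀ i, v i ∈ eig ι τ := fun i => hvs ▸ Submodule.subset_span ⟨i, rfl⟩
  have hωe : ∀ i, ω i ∈ eig ι τ := fun i => hωs ▸ Submodule.subset_span ⟨i, rfl⟩
  have hvm : ∀ i, v i ∈ S.cx M := fun i => eig_le ι τ (hve i)
  have hωm : ∀ i, ω i ∈ S.cx M := fun i => eig_le ι τ (hωe i)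
  have hfr : finrank ℂ (eig ι τ') = n := by
    rw [finrank_eig ι hM hι τ' τ, ← hvs, finrank_span_eq_card hv, Fintype.card_fin]
  have hspan : ∀ (u : Fin n → S.W) (hu : LinearIndependent ℂ u), (∀ i, u i ∈ eig ι τ') →
      Submodule.span ℂ (Set.range u) = eig ι τ' := by
    intro u hu hm
    refine Submodule.eq_of_le_of_finrank_eq ?_ ?_
    · rw [Submodule.span_le]
      rintro _ ⟨i, rfl⟩
      exact hm i
    · rw [finrank_span_eq_card hu, Fintype.card_fin, hfr]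
  have hv' := J_lin hJ.inj hv hvm
  have hω' := J_lin hJ.inj hω hωm
  refine ⟨n, fun i => (J ⟨v i, hvm i⟩ : S.W), fun i => (J ⟨ω i, hωm i⟩ : S.W),
    Φ.map (starRingEnd ℂ), hv', hspan _ hv' fun i => J_eig ι hθ hτ (hve i), hω',
    hspan _ hω' fun i => J_eig ι hθ hτ (hωe i), fun j => J_Qbar hJ.betti (hvB j) (hvm j),
    fun j => hJ.deRham _ (hωD j), fun i => ?_, ?_⟩
  · have h1 : (⟨ω i, hωm i⟩ : S.cx M) = ∑ j, Φ i j • ⟨v j, hvm j⟩ := by
      apply Subtype.ext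
      rw [AddSubmonoidClass.coe_finsetSum]
      exact hΦ i
    change ((J ⟨ω i, hωm i⟩ : S.cx M) : S.W) = _
    rw [h1, map_sum, AddSubmonoidClass.coe_finsetSum]
    refine Finset.sum_congr rfl fun j _ => ?_
    rw [LinearMap.map_smulₛₗ]
    rfl
  · exact RingHom.map_det (starRingEnd ℂ) Φ

/-- A reflection transports Hodge numbers. -/
theorem finrank_refl {J : S.cx M →ₛₗ[starRingEnd ℂ] S.cx M} (hJ : IsRefl S M J)
    {θ : K ≃ₐ[ℚ] K} (hθ : ∀ a x, J (ι a x) = ι (θ a) (J x)) {τ τ' : K →+* ℂ}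
    (hτ : ∀ a, τ' (θ a) = starRingEnd ℂ (τ a)) (p : ℕ) :
    finrank ℂ (eig ι τ ⊓ S.hodge p : Submodule ℂ S.W) ≤
      finrank ℂ (eig ι τ' ⊓ S.hodge p : Submodule ℂ S.W) := by
  let U : Submodule ℂ S.W := eig ι τ ⊓ S.hodge p
  let b := Module.finBasis ℂ U
  have hb : LinearIndependent ℂ (fun i => (b i : S.W)) :=
    b.linearIndependent.map' U.subtype (Submodule.ker_subtype U)
  have hm : ∀ i, (b i : S.W) ∈ S.cx M := fun i => eig_le ι τ (b i).2.1
  have h1 := J_lin hJ.inj hb hm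
  have h2 : ∀ i, (J ⟨(b i : S.W), hm i⟩ : S.W) ∈ (eig ι τ' ⊓ S.hodge p : Submodule ℂ S.W) :=
    fun i => ⟨J_eig ι hθ hτ (b i).2.1, hJ.hodge p _ (b i).2.2⟩
  have h3 : LinearIndependent ℂ (fun i =>
      (⟨(J ⟨(b i : S.W), hm i⟩ : S.W), h2 i⟩ : (eig ι τ' ⊓ S.hodge p : Submodule ℂ S.W))) := by
    apply LinearIndependent.of_comp (eig ι τ' ⊓ S.hodge p : Submodule ℂ S.W).subtype
    exact h1
  have h4 := h3.fintype_card_le_finrank
  rw [Fintype.card_fin] at h4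
  exact h4

/-- The general form: the conjugate of a determinant of periods is a determinant of periods for an
embedding with the same Hodge types. -/
theorem refl_gen (P : Pol S) (hM : IsSimple S M) (hs : SelfConj S M) (hG : IsGalois ℚ K)
    (hcomm : ∀ x y : (K ≃ₐ[ℚ] K), x * y = y * x) (e : K →+* ℂ) (hι : IsCentral ι) :
    ∃ u : K ≃ₐ[ℚ] K, u * u = 1 ∧ ∀ τ : K →+* ℂ,
      detType ι (τ.comp (u : K →+* K)) = detType ι τ ∧
      ∀ z z', IsDetPeriod ι τ z → IsDetPeriod ι (τ.comp (u : K →+* K)) z' →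
        Sim (starRingEnd ℂ z) z' := by
  obtain ⟨J, hJ⟩ := hs
  obtain ⟨θ, hθ, hθ2⟩ := exists_theta P hM hJ ι hι
  obtain ⟨c, hc, hc2⟩ := exists_cc hcomm e
  have hu : (c * θ) * (c * θ) = 1 := by
    have h1 : (c * θ) * (c * θ) = c * (θ * c) * θ := by group
    rw [h1, hcomm θ c, ← mul_assoc, hc2, one_mul, hθ2]
  have hτ : ∀ (τ : K →+* ℂ) a, (τ.comp ((c * θ : K ≃ₐ[ℚ] K) : K →+* K)) (θ a) =
      starRingEnd ℂ (τ a) := by
    intro τ a
    have h1 : θ (θ a) = a := congrArg (fun t : K ≃ₐ[ℚ] K => t a) hθ2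
    have h2 : (τ.comp ((c * θ : K ≃ₐ[ℚ] K) : K →+* K)) (θ a) = τ (c (θ (θ a))) := rfl
    rw [h2, h1, hc]
  have hcc : ∀ τ : K →+* ℂ, (τ.comp ((c * θ : K ≃ₐ[ℚ] K) : K →+* K)).comp
      ((c * θ : K ≃ₐ[ℚ] K) : K →+* K) = τ := by
    intro τ
    ext a
    have h2 : ((τ.comp ((c * θ : K ≃ₐ[ℚ] K) : K →+* K)).comp
      ((c * θ : K ≃ₐ[ℚ] K) : K →+* K)) a = τ (((c * θ) * (c * θ) : K ≃ₐ[ℚ] K) a) := rfl
    rw [h2, hu]
    rfl
  refine ⟨c * θ, hu, fun τ => ⟨?_, fun z z' hz hz' => ?_⟩⟩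
  · unfold detType
    refine Finset.sum_congr rfl fun p _ => ?_
    congr 1
    refine le_antisymm ?_ (finrank_refl ι hJ hθ (hτ τ) p)
    have h1 := finrank_refl ι hJ hθ (hτ (τ.comp ((c * θ : K ≃ₐ[ℚ] K) : K →+* K))) p
    rwa [hcc] at h1
  · exact detPeriod_sim hM.sub.le ι (detPeriod_refl ι hM.sub hι.isEnd hJ hθ (hτ τ) hz) hz'

/-- The dichotomy. -/
theorem half (P : Pol S) (hM : IsSimple S M) (hs : SelfConj S M) (hG : IsGalois ℚ K)
    (hcyc : IsCyclic (K ≃ₐ[ℚ] K)) (e : K →+* ℂ) (him : ∃ x, (e x).im ≠ 0) (hι : IsCentral ι) :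
    (∀ τ z, IsDetPeriod ι τ z → AlgPhase z) ∨
      ∃ r : ℕ, ∀ τ, detType ι τ = r ∧
        ∀ z, IsDetPeriod ι τ z → Sim ((‖z‖ : ℝ) : ℂ) ((Real.pi : ℂ) ^ r) := by
  obtain ⟨J, hJ⟩ := hs
  obtain ⟨θ, hθ, hθ2⟩ := exists_theta P hM hJ ι hι
  rcases theta_cases hG hcyc e him hθ2 with h1 | h1
  · right
    subst h1
    have hτ : ∀ (τ : K →+* ℂ) a, (ComplexEmbedding.conjugate τ) ((1 : K ≃ₐ[ℚ] K) a) =
        starRingEnd ℂ (τ a) := fun τ a => rfl
    have hτ' : ∀ (τ : K →+* ℂ) a, τ ((1 : K ≃ₐ[ℚ] K) a) =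
        starRingEnd ℂ ((ComplexEmbedding.conjugate τ) a) := fun τ a => by
      rw [ComplexEmbedding.conjugate_coe_eq, Complex.conj_conj]
      rfl
    have ht : ∀ τ : K →+* ℂ, detType ι τ = detType ι (ComplexEmbedding.conjugate τ) := by
      intro τ
      unfold detType
      refine Finset.sum_congr rfl fun p _ => ?_
      congr 1
      exact le_antisymm (finrank_refl ι hJ hθ (hτ τ) p) (finrank_refl ι hJ hθ (hτ' τ) p)
    have h2 : ∀ τ : K →+* ℂ, 2 * detType ι τ = finrank ℂ (eig ι τ) * S.wt := by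
      intro τ
      have h3 := leg_type ι P hM.sub hι.isEnd τ
      rw [← ht τ] at h3
      omega
    refine ⟨detType ι e, fun τ => ⟨?_, fun z hz => ?_⟩⟩
    · have h3 := h2 τ
      rw [finrank_eig ι hM.sub hι.isEnd τ e, ← h2 e] at h3
      omega
    · have h3 : detType ι τ = detType ι e := by
        have h3 := h2 τ
        rw [finrank_eig ι hM.sub hι.isEnd τ e, ← h2 e] at h3
        omega
      have h4 := leg_period ι P hM.sub hι.isEnd τ hz
        (detPeriod_refl ι hM.sub hι.isEnd hJ hθ (hτ τ) hz)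
      rw [← h2 τ, h3, mul_conj_eq] at h4
      have hz0 : z ≠ 0 := (detPeriod_trace ι hM.sub.le hz).1
      have hpi : (Real.pi : ℂ) ≠ 0 := by exact_mod_cast Real.pi_ne_zero
      refine Sim.of_sq (norm_ne hz0) (pow_ne_zero _ hpi) (h4.trans ?_)
      have h5 : IsAlgebraic ℚ (2 * I : ℂ) := by
        have hI : IsAlgebraic ℚ I := by
          refine ⟨Polynomial.X ^ 2 + 1, ?_, ?_⟩
          · intro h
            have := congrArg (Polynomial.eval 0) h
            simp at this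
          · simp
        have h4 : IsAlgebraic ℚ (2 : ℂ) := by
          have := isAlgebraic_algebraMap (R := ℚ) (A := ℂ) (2 : ℚ)
          simpa using this
        exact h4.mul hI
      have h6 : (2 * (Real.pi : ℂ) * I) ^ (2 * detType ι e) =
          (2 * I) ^ (2 * detType ι e) * ((Real.pi : ℂ) ^ detType ι e) ^ 2 := by
        rw [← pow_mul, mul_comm (detType ι e) 2, ← mul_pow]
        ring_nf
      rw [h6]
      exact Sim.of_alg (pow_ne_zero _ (by simp)) (h5.pow _) (pow_ne_zero _ (pow_ne_zero _ hpi))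
  · left
    intro τ z hz
    rw [algPhase_iff]
    exact detPeriod_sim hM.sub.le ι hz (detPeriod_refl ι hM.sub hι.isEnd hJ hθ (fun a => h1 τ a) hz)

end GD
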