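import Pool.Agent.H46.GP.Triple
import Pool.Agent.H46.GP.Final

/-!
# Phases of a triple and its complex conjugate
-/

noncomputable section

namespace GD

open Complex Module NumberField

variable {S : Str} {F : Type} [Field F] [NumberField F] {A : Adm S F} {f : Fam S F}

theorem Attached.isSub (hf : Attached A f) : IsSub S A.H := by
  refine ⟨A.le, A.sub_hodge, fun w hw => ?_⟩
  obtain ⟨t, ht⟩ := hf.exp ⟨w, hw⟩
  have h1 : w = ∑ σ, (t σ / f.c σ) • (f.c σ • f.v σ) := by
    have h2 := congrArg (fun x : S.cx A.H => (x : S.W)) ht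
    simp only [AddSubmonoidClass.coe_finsetSum] at h2
    rw [h2]
    refine Finset.sum_congr rfl fun σ _ => ?_
    rw [smul_smul, div_mul_cancel₀ _ (f.c_ne σ)]
    rfl
  rw [h1]
  refine Submodule.sum_mem _ fun σ _ => Submodule.smul_mem _ _ (Submodule.subset_span ⟨f.dR σ, ?_⟩)
  exact Submodule.smul_mem _ _ (hf.v_cx σ)

/-- The basis of eigenvectors. -/
theorem Attached.exists_basis (hf : Attached A f) :
    ∃ b : Basis (F →+* ℂ) ℂ (S.cx A.H), ∀ σ, b σ = ⟨f.v σ, hf.v_cx σ⟩ := by
  classical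
  have h1 : LinearIndependent ℂ (fun σ => (⟨f.v σ, hf.v_cx σ⟩ : S.cx A.H)) := by
    apply LinearIndependent.of_comp (S.cx A.H).subtype
    exact f.lin
  have h2 : ⊤ ≤ Submodule.span ℂ (Set.range fun σ => (⟨f.v σ, hf.v_cx σ⟩ : S.cx A.H)) := by
    intro x _
    obtain ⟨t, rfl⟩ := hf.exp x
    exact Submodule.sum_mem _ fun σ _ => Submodule.smul_mem _ _
      (Submodule.subset_span ⟨σ, rfl⟩)
  exact ⟨Basis.mk h1 h2, fun σ => by rw [Basis.mk_apply]⟩

/-- Coordinates of de Rham vectors. -/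
theorem Attached.coord_D (hf : Attached A f) {t : (F →+* ℂ) → ℂ}
    (hx : ∑ σ, t σ • f.v σ ∈ S.D) (σ : F →+* ℂ) : IsAlgebraic ℚ (t σ / f.c σ) := by
  have hlin : LinearIndependent ℂ (fun σ => f.c σ • f.v σ) :=
    f.lin.units_smul (fun σ => Units.mk0 (f.c σ) (f.c_ne σ))
  have hx' : ∑ σ, (t σ / f.c σ) • (f.c σ • f.v σ) ∈ S.D := by
    have h2 : ∑ σ, t σ • f.v σ = ∑ σ, (t σ / f.c σ) • (f.c σ • f.v σ) := by
      refine Finset.sum_congr rfl fun σ _ => ?_
      rw [smul_smul, div_mul_cancel₀ _ (f.c_ne σ)]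
    rw [← h2]
    exact hx
  apply isAlgebraic_of_der
  intro δ
  have h4 := S.nabD_D δ hx'
  rw [map_sum] at h4
  have h5 : ∑ σ, δ (t σ / f.c σ) • (f.c σ • f.v σ) = 0 := by
    rw [← h4]
    refine Finset.sum_congr rfl fun σ _ => ?_
    rw [S.nabD_smul, S.nabD_D δ (f.dR σ), smul_zero, add_zero]
  exact Fintype.linearIndependent_iff.1 hlin _ h5 σ

/-- Coordinates of vectors of a Hodge piece. -/
theorem Attached.coord_hodge (hf : Attached A f) {t : (F →+* ℂ) → ℂ} {p : ℕ}
    (hx : ∑ σ, t σ • f.v σ ∈ S.hodge p) (σ : F →+* ℂ) (hσ : f.p σ ≠ p) : t σ = 0 := by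
  classical
  have h1 : hpr S p (∑ σ, t σ • f.v σ) = ∑ σ, (if f.p σ = p then t σ else 0) • f.v σ := by
    rw [map_sum]
    refine Finset.sum_congr rfl fun σ _ => ?_
    rw [map_smul, hpr, DT.hodgeEnd_apply S _ (f.p σ) _ (f.hdg σ)]
    by_cases h : f.p σ = p
    · rw [if_pos h, if_pos h, one_smul]
    · rw [if_neg h, if_neg h, zero_smul, smul_zero]
  rw [hpr_of_mem hx] at h1
  have h2 : ∑ σ, (t σ - if f.p σ = p then t σ else 0) • f.v σ = 0 := by
    simp only [sub_smul, Finset.sum_sub_distrib]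
    rw [← h1, sub_self]
  have h3 := Fintype.linearIndependent_iff.1 f.lin _ h2 σ
  rw [if_neg hσ, sub_zero] at h3
  exact h3

/-- The periods of a triple have algebraic phases if and only if the triple is isomorphic to its
complex conjugate. -/
theorem phase_iff (A : Adm S F) (c : F ≃ₐ[ℚ] F)
    (hc : ∀ (σ : F →+* ℂ) a, σ (c a) = starRingEnd ℂ (σ a)) :
    (∀ σ z, A.IsPeriod σ z → AlgPhase z) ↔
      ∃ J : S.cx A.H →ₛₗ[starRingEnd ℂ] S.cx A.H, IsRefl S A.H J ∧
        ∀ a x, J (A.ι a x) = A.ι (c a) (J x) := by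
  classical
  obtain ⟨p, hp⟩ := A.exists_type
  obtain ⟨f, hf, -⟩ := A.exists_fam p hp
  constructor
  · intro h
    have hph : ∀ σ, Sim (f.c σ) (starRingEnd ℂ (f.c σ)) := by
      intro σ
      obtain ⟨z, hz⟩ := hf.exists_period σ
      exact algPhase_iff.1 (AlgPhase.of_sim (hf.period_sim hz).symm (h σ z hz))
    obtain ⟨b, hb⟩ := hf.exists_basis
    have hcoe : ∀ t : (F →+* ℂ) → ℂ, ((∑ σ, t σ • b σ : S.cx A.H) : S.W) =
        ∑ σ, t σ • f.v σ := by
      intro t
      rw [AddSubmonoidClass.coe_finsetSum]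
      refine Finset.sum_congr rfl fun σ _ => ?_
      rw [hb]
      rfl
    let J : S.cx A.H →ₛₗ[starRingEnd ℂ] S.cx A.H :=
      { toFun := fun x => ∑ σ, starRingEnd ℂ (b.repr x σ) • b σ
        map_add' := fun x y => by
          rw [← Finset.sum_add_distrib]
          refine Finset.sum_congr rfl fun σ _ => ?_
          rw [map_add, Finsupp.add_apply, map_add, add_smul]
        map_smul' := fun a x => by
          rw [Finset.smul_sum]
          refine Finset.sum_congr rfl fun σ _ => ?_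
          rw [map_smul, Finsupp.smul_apply, smul_eq_mul, map_mul, mul_smul] }
    have hJ : ∀ x, J x = ∑ σ, starRingEnd ℂ (b.repr x σ) • b σ := fun _ => rfl
    have hJt : ∀ t : (F →+* ℂ) → ℂ, J (∑ σ, t σ • b σ) = ∑ σ, starRingEnd ℂ (t σ) • b σ := by
      intro t
      rw [hJ]
      refine Finset.sum_congr rfl fun σ _ => ?_
      rw [Basis.repr_sum_self]
    have hrep : ∀ x : S.cx A.H, x = ∑ σ, b.repr x σ • b σ := fun x => (b.sum_repr x).symm
    refine ⟨J, ⟨?_, ?_, ?_, ?_⟩, ?_⟩
    · intro x y hxy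
      rw [hJ, hJ] at hxy
      apply b.repr.injective
      ext σ
      have h1 := congrArg (fun w => b.repr w σ) hxy
      simp only [Basis.repr_sum_self] at h1
      exact (starRingEnd ℂ).injective h1
    · intro x hx
      obtain ⟨y, hy⟩ := (hf.mem _).1 hx
      have h1 : x = ∑ σ, σ y • b σ := by
        apply Subtype.ext
        rw [hcoe]
        exact hy
      rw [h1, hJt, hcoe]
      refine (hf.mem _).2 ⟨c y, ?_⟩
      exact Finset.sum_congr rfl fun σ _ => by rw [hc]
    · intro x hx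
      rw [hrep x, hcoe] at hx
      rw [hJ, hcoe]
      refine Submodule.sum_mem _ fun σ _ => ?_
      have h1 := hf.coord_D hx σ
      have h2 : starRingEnd ℂ (b.repr x σ) • f.v σ =
          (starRingEnd ℂ (b.repr x σ / f.c σ) * (starRingEnd ℂ (f.c σ) / f.c σ)) •
            (f.c σ • f.v σ) := by
        rw [smul_smul, map_div₀]
        congr 1
        have h3 := f.c_ne σ
        have h4 := (hph σ).2.1
        field_simp
      rw [h2]
      exact S.D_smul ((isAlgebraic_conj h1).mul (hph σ).symm.2.2) (f.dR σ)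
    · intro q x hx
      rw [hrep x, hcoe] at hx
      rw [hJ, hcoe]
      refine Submodule.sum_mem _ fun σ _ => ?_
      by_cases h : f.p σ = q
      · rw [← h]
        exact Submodule.smul_mem _ _ (f.hdg σ)
      · rw [hf.coord_hodge hx σ h, map_zero, zero_smul]
        exact zero_mem _
    · intro a x
      have h1 : A.ι a x = ∑ σ, (σ a * b.repr x σ) • b σ := by
        conv_lhs => rw [hrep x, map_sum]
        refine Finset.sum_congr rfl fun σ _ => ?_
        rw [map_smul, hb, hf.iota_v, smul_smul, mul_comm]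
      have h2 : A.ι (c a) (J x) = ∑ σ, (σ (c a) * starRingEnd ℂ (b.repr x σ)) • b σ := by
        rw [hJ, map_sum]
        refine Finset.sum_congr rfl fun σ _ => ?_
        rw [map_smul, hb, hf.iota_v, smul_smul, mul_comm]
      rw [h1, hJt, h2]
      refine Finset.sum_congr rfl fun σ _ => ?_
      rw [map_mul, hc]
  · rintro ⟨J, hJ, hJc⟩ σ z hz
    refine AlgPhase.of_sim (hf.period_sim hz) (algPhase_iff.2 ?_)
    exact detPeriod_sim A.le A.ι (hf.detPeriod σ)
      (detPeriod_refl A.ι hf.isSub hf.isEnd hJ hJc (fun a => hc σ a) (hf.detPeriod σ))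

/-- Subfields of cyclotomic fields are abelian. -/
theorem galois_of_liesIn {K : Type} [Field K] [NumberField K] {e : K →+* ℂ}
    (hex : ∃ d, LiesIn e d) :
    IsGalois ℚ K ∧ ∀ x y : (K ≃ₐ[ℚ] K), x * y = y * x := by
  obtain ⟨d, hd, he⟩ := hex
  have : NeZero d := ⟨hd.ne'⟩
  have hab := isAbelian_of e he
  exact ⟨inferInstance, fun x y => IsMulCommutative.is_comm.comm x y⟩

end GD
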