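import Pool.Agent.H46.GP.Defs
import Pool.Agent.H26.DT.Conv

/-!
# Inverses of endomorphisms and of reflections
-/

noncomputable section

namespace GD

open Complex Module NumberField

variable {S : Str} {M : Submodule ℚ S.W}

/-- An injective linear operator which preserves a finite dimensional form is onto on it. -/
theorem surj_form {k : Type} [Field k] [Algebra k ℂ] {W : Type} [AddCommGroup W] [Module ℂ W]
    [Module k W] [IsScalarTower k ℂ W] (V : Submodule k W) [Module.Finite k V]
    (f : W →ₗ[ℂ] W) (hf : Function.Injective f) (hV : ∀ x ∈ V, f x ∈ V) :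
    ∀ y ∈ V, ∃ x ∈ V, f x = y := by
  intro y hy
  have h1 : ∀ x ∈ V, (f.restrictScalars k) x ∈ V := hV
  have hinj : Function.Injective ((f.restrictScalars k).restrict h1) := by
    intro a b hab
    apply Subtype.ext
    exact hf (congrArg Subtype.val hab)
  obtain ⟨x, hx⟩ := (LinearMap.injective_iff_surjective.1 hinj) ⟨y, hy⟩
  exact ⟨x, x.2, congrArg Subtype.val hx⟩

/-- The inverse of an injective endomorphism is an endomorphism. -/
theorem IsEnd.exists_inv (hM : M ≤ S.B) {f : Module.End ℂ (S.cx M)} (hf : IsEnd S M f)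
    (hinj : Function.Injective f) :
    ∃ g : Module.End ℂ (S.cx M), IsEnd S M g ∧ (∀ x, f (g x) = x) ∧ ∀ x, g (f x) = x := by
  have hsurj : Function.Surjective f := LinearMap.injective_iff_surjective.1 hinj
  let e : S.cx M ≃ₗ[ℂ] S.cx M := LinearEquiv.ofBijective f ⟨hinj, hsurj⟩
  have he : ∀ x, e x = f x := fun _ => rfl
  have h1 : ∀ x, f (e.symm x) = x := fun x => e.apply_symm_apply x
  have h2 : ∀ x, e.symm (f x) = x := fun x => e.symm_apply_apply x
  let VB : Submodule ℚ (S.cx M) := M.comap ((S.cx M).subtype.restrictScalars ℚ)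
  let VD : Submodule Qbar (S.cx M) := S.D.comap ((S.cx M).subtype.restrictScalars Qbar)
  let VH : ℕ → Submodule ℂ (S.cx M) := fun p => (S.hodge p).comap (S.cx M).subtype
  haveI := finite_sub hM
  haveI := S.finite_D
  haveI : Module.Finite ℚ VB := by
    let j : VB →ₗ[ℚ] M :=
      { toFun := fun x => ⟨((x : S.cx M) : S.W), x.2⟩
        map_add' := fun _ _ => rfl
        map_smul' := fun _ _ => rfl }
    refine Module.Finite.of_injective j ?_
    intro a b hab
    apply Subtype.ext
    apply Subtype.ext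
    exact congrArg (fun t : M => (t : S.W)) hab
  haveI : Module.Finite Qbar VD := by
    let j : VD →ₗ[Qbar] S.D :=
      { toFun := fun x => ⟨((x : S.cx M) : S.W), x.2⟩
        map_add' := fun _ _ => rfl
        map_smul' := fun _ _ => rfl }
    refine Module.Finite.of_injective j ?_
    intro a b hab
    apply Subtype.ext
    apply Subtype.ext
    exact congrArg (fun t : S.D => (t : S.W)) hab
  refine ⟨e.symm.toLinearMap, ⟨?_, ?_, ?_⟩, h1, h2⟩
  · intro x hx
    obtain ⟨y, hy, hxy⟩ := surj_form VB f hinj (fun z hz => hf.betti z hz) x hx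
    change ((e.symm x : S.cx M) : S.W) ∈ M
    rw [← hxy, h2]
    exact hy
  · intro x hx
    obtain ⟨y, hy, hxy⟩ := surj_form VD f hinj (fun z hz => hf.deRham z hz) x hx
    change ((e.symm x : S.cx M) : S.W) ∈ S.D
    rw [← hxy, h2]
    exact hy
  · intro p x hx
    obtain ⟨y, hy, hxy⟩ := surj_form (VH p) f hinj (fun z hz => hf.hodge p z hz) x hx
    change ((e.symm x : S.cx M) : S.W) ∈ S.hodge p
    rw [← hxy, h2]
    exact hy

/-- The square of a reflection. -/
def sqJ (J : S.cx M →ₛₗ[starRingEnd ℂ] S.cx M) : Module.End ℂ (S.cx M) where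
  toFun x := J (J x)
  map_add' x y := by rw [map_add, map_add]
  map_smul' c x := by
    rw [LinearMap.map_smulₛₗ, LinearMap.map_smulₛₗ, Complex.conj_conj]
    rfl

/-- Conjugation of an operator by `J` and `J'`. -/
def cjJ (J J' : S.cx M →ₛₗ[starRingEnd ℂ] S.cx M) (f : Module.End ℂ (S.cx M)) :
    Module.End ℂ (S.cx M) where
  toFun x := J (f (J' x))
  map_add' x y := by rw [map_add, map_add, map_add]
  map_smul' c x := by
    rw [LinearMap.map_smulₛₗ, map_smul, LinearMap.map_smulₛₗ, Complex.conj_conj]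
    rfl

/-- The inverse of a reflection. -/
theorem IsRefl.exists_inv (hM : M ≤ S.B) {J : S.cx M →ₛₗ[starRingEnd ℂ] S.cx M}
    (hJ : IsRefl S M J) :
    ∃ J' : S.cx M →ₛₗ[starRingEnd ℂ] S.cx M, IsRefl S M J' ∧ (∀ x, J (J' x) = x) ∧
      ∀ x, J' (J x) = x := by
  have hsq : IsEnd S M (sqJ J) :=
    ⟨fun x hx => hJ.betti _ (hJ.betti x hx), fun x hx => hJ.deRham _ (hJ.deRham x hx),
      fun p x hx => hJ.hodge p _ (hJ.hodge p x hx)⟩
  have hinj : Function.Injective (sqJ J) := fun x y h => hJ.inj (hJ.inj h)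
  obtain ⟨g, hg, h1, h2⟩ := hsq.exists_inv hM hinj
  let J' : S.cx M →ₛₗ[starRingEnd ℂ] S.cx M :=
    { toFun := fun x => J (g x)
      map_add' := fun x y => by rw [map_add, map_add]
      map_smul' := fun c x => by rw [map_smul, LinearMap.map_smulₛₗ] }
  have hJ' : ∀ x, J' x = J (g x) := fun _ => rfl
  have h3 : ∀ x, J (J' x) = x := fun x => h1 x
  have h4 : ∀ x, J' (J x) = x := fun x => hJ.inj (h3 (J x))
  refine ⟨J', ⟨fun x y h => ?_, fun x hx => hJ.betti _ (hg.betti x hx),
    fun x hx => hJ.deRham _ (hg.deRham x hx), fun p x hx => hJ.hodge p _ (hg.hodge p x hx)⟩,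
    h3, h4⟩
  rw [← h3 x, ← h3 y, h]

/-- Conjugation by a reflection preserves the endomorphisms. -/
theorem IsEnd.cj {J J' : S.cx M →ₛₗ[starRingEnd ℂ] S.cx M} (hJ : IsRefl S M J)
    (hJ' : IsRefl S M J') {f : Module.End ℂ (S.cx M)} (hf : IsEnd S M f) :
    IsEnd S M (cjJ J J' f) :=
  ⟨fun x hx => hJ.betti _ (hf.betti _ (hJ'.betti x hx)),
    fun x hx => hJ.deRham _ (hf.deRham _ (hJ'.deRham x hx)),
    fun p x hx => hJ.hodge p _ (hf.hodge p _ (hJ'.hodge p x hx))⟩

end GD
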