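import Pool.Agent.H46.GP.Trans

/-!
# The results in the final form
-/

noncomputable section

namespace GD.Ph

open Complex Module NumberField

variable {S : Str} {M : Submodule ℚ S.W}

theorem reflected (hP : Nonempty (Pol S)) (hM : IsSimple S M) (hs : SelfConj S M) {K : Type}
    [Field K] [NumberField K] (ι : K →+* Module.End ℂ (Cx S M)) (hι : Central ι) {e : K →+* ℂ}
    (hex : ∃ d, LiesIn e d) : Reflected ι := by
  obtain ⟨P⟩ := hP
  obtain ⟨hG, hcomm⟩ := galois_of_liesIn hex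
  obtain ⟨u, hu, h⟩ := refl_gen (low ι) P hM (selfConj_iff.1 hs) hG hcomm e
    ((central_iff ι).1 hι)
  refine ⟨(u : K →+* K), fun a => congrArg (fun t : K ≃ₐ[ℚ] K => t a) hu, fun τ => ⟨?_, ?_⟩⟩
  · rw [typ_eq, typ_eq]
    exact (h τ).1
  · intro z z' hz hz'
    exact (h τ).2 z z' ((isDet_iff ι τ z).1 hz) ((isDet_iff ι _ z').1 hz')

theorem half' (hP : Nonempty (Pol S)) (hM : IsSimple S M) (hs : SelfConj S M) {K : Type}
    [Field K] [NumberField K] (ι : K →+* Module.End ℂ (Cx S M)) (hι : Central ι) {e : K →+* ℂ}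
    (hK : ImCyc K e) : DetPhase ι ∨ ∃ r, ConstType ι r ∧
      ∀ τ z, IsDet ι τ z → Sim (‖z‖ : ℂ) ((Real.pi : ℂ) ^ r) := by
  obtain ⟨P⟩ := hP
  rcases half (low ι) P hM (selfConj_iff.1 hs) hK.2.1 hK.2.2 e hK.1 ((central_iff ι).1 hι) with
    h | ⟨r, h⟩
  · exact Or.inl ((detPhase_iff ι).2 h)
  · refine Or.inr ⟨r, fun τ => ?_, fun τ z hz => (h τ).2 z ((isDet_iff ι τ z).1 hz)⟩
    rw [typ_eq]
    exact (h τ).1

theorem tripleReflected (hP : Nonempty (Pol S)) {F : Type} [Field F] [NumberField F]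
    (A : Adm S F) (hA : IsSimple S A.H) (hs : SelfConj S A.H) {e : F →+* ℂ}
    (hex : ∃ d, LiesIn e d) : TripleReflected A := by
  obtain ⟨P⟩ := hP
  obtain ⟨hG, hcomm⟩ := galois_of_liesIn hex
  obtain ⟨u, hu, h⟩ := triple_refl P A hA (selfConj_iff.1 hs) hG hcomm e
  exact ⟨(u : F →+* F), fun a => congrArg (fun t : F ≃ₐ[ℚ] F => t a) hu, h⟩

theorem triplePhase_iff {F : Type} [Field F] [NumberField F] (A : Adm S F) (c : F →+* F)
    (hc : ∀ (σ : F →+* ℂ) a, σ (c a) = starRingEnd ℂ (σ a)) :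
    TriplePhase A ↔ ∃ J : Cx S A.H →ₛₗ[starRingEnd ℂ] Cx S A.H, Function.Injective J ∧
      IsMor (M' := A.H) (M := A.H) J ∧ ∀ a x, J (act A a x) = act A (c a) (J x) := by
  have hex : Nonempty (F →+* ℂ) := by
    rw [← Fintype.card_pos_iff, card_emb]
    exact Module.finrank_pos
  obtain ⟨e⟩ := hex
  have hcc : ∀ a, c (c a) = a := by
    intro a
    apply e.injective
    rw [hc, hc, Complex.conj_conj]
  let c' : F ≃+* F := RingEquiv.ofRingHom c c (RingHom.ext hcc) (RingHom.ext hcc)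
  let c'' : F ≃ₐ[ℚ] F := AlgEquiv.ofRingEquiv (f := c') (fun q => by
    rw [eq_ratCast, map_ratCast])
  have h := phase_iff A c'' hc
  constructor
  · intro h1
    obtain ⟨J, hJ, hJc⟩ := h.1 h1
    have h2 := isMor_refl.2 hJ
    exact ⟨J, h2.1, h2.2, hJc⟩
  · rintro ⟨J, h1, h2, h3⟩
    exact h.2 ⟨J, isMor_refl.1 ⟨h1, h2⟩, h3⟩

section cls

variable {C : Str → Prop} {F : Type} [Field F] [NumberField F] {e : F →+* ℂ}

theorem phaseFor_iff : PhaseFor (Gen C) F ↔ GD.PhaseFor (Gen C) F := Iff.rfl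

theorem det_iff : (AllDet C e fun _ _ _ _ _ ι => DetPhase ι) ↔ GD.DetPhaseFor C e := by
  constructor
  · intro h K _ _ i him hG hc S hS M hM ι hι
    exact (detPhase_iff (S := S) (M := M) ι).1
      (h K i ⟨him, hG, hc⟩ S hS M hM ι ((central_iff (S := S) (M := M) ι).2 hι))
  · intro h K _ _ i hK S hS M hM ι hι
    exact (detPhase_iff ι).2 (h K i hK.1 hK.2.1 hK.2.2 S hS M hM (low ι) ((central_iff ι).1 hι))

theorem pow_iff : PowPhase C e ↔ GD.PowPhaseFor C e :=
  ⟨fun h K _ _ i him hG hc => h K i ⟨him, hG, hc⟩, fun h K _ _ i hK => h K i hK.1 hK.2.1 hK.2.2⟩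

theorem self_iff : (AllDet C e fun _ _ _ S M _ => SelfConj S M) ↔
    GD.AllDet C e fun _ _ _ _ S M _ => GD.SelfConj S M := by
  constructor
  · intro h K _ _ i him hG hc S hS M hM ι hι
    exact selfConj_iff.1 (h K i ⟨him, hG, hc⟩ S hS M hM ι
      ((central_iff (S := S) (M := M) ι).2 hι))
  · intro h K _ _ i hK S hS M hM ι hι
    exact selfConj_iff.2 (h K i hK.1 hK.2.1 hK.2.2 S hS M hM (low ι) ((central_iff ι).1 hι))

theorem const_iff : (AllDet C e fun _ _ _ _ _ ι => (∃ r, ConstType ι r) → DetPhase ι) ↔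
    GD.AllDet C e fun _ _ _ _ _ _ ι => GD.ConstPhase ι := by
  have hr : ∀ {K : Type} [Field K] {S : Str} {M : Submodule ℚ S.W}
      (ι : K →+* Module.End ℂ (Cx S M)), (∃ r, ConstType ι r) ↔
        ∃ r, ∀ τ, detType (low ι) τ = r := by
    intro K _ S M ι
    refine exists_congr fun r => forall_congr' fun τ => ?_
    rw [typ_eq]
  constructor
  · intro h K _ _ i him hG hc S hS M hM ι hι hr'
    exact (detPhase_iff (S := S) (M := M) ι).1
      (h K i ⟨him, hG, hc⟩ S hS M hM ι ((central_iff (S := S) (M := M) ι).2 hι)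
        ((hr (S := S) (M := M) ι).2 hr'))
  · intro h K _ _ i hK S hS M hM ι hι hr'
    exact (detPhase_iff ι).2 (h K i hK.1 hK.2.1 hK.2.2 S hS M hM (low ι) ((central_iff ι).1 hι)
      ((hr ι).1 hr'))

theorem norm_iff : (AllDet C e fun _ _ e' _ _ ι => DetNorm ι e') ↔
    GD.AllDet C e fun _ _ _ e' _ _ ι => GD.DetNormRelation ι e' := by
  have hr : ∀ {K : Type} [Field K] {S : Str} {M : Submodule ℚ S.W}
      (ι : K →+* Module.End ℂ (Cx S M)) (e' : K →+* ℂ),
      DetNorm ι e' ↔ GD.DetNormRelation (low ι) e' := by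
    intro K _ S M ι e'
    constructor
    · intro h d _ hd ε hε l τ hτ z hz
      exact h d hd ε (fun l τ hτ => by rw [typ_eq]; exact hε l τ hτ) l τ hτ z
        ((isDet_iff ι τ z).2 hz)
    · intro h d _ hd ε hε l τ hτ z hz
      exact h d hd ε (fun l τ hτ => by rw [← typ_eq]; exact hε l τ hτ) l τ hτ z
        ((isDet_iff ι τ z).1 hz)
  constructor
  · intro h K _ _ i him hG hc S hS M hM ι hι
    exact (hr (S := S) (M := M) ι _).1
      (h K i ⟨him, hG, hc⟩ S hS M hM ι ((central_iff (S := S) (M := M) ι).2 hι))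
  · intro h K _ _ i hK S hS M hM ι hι
    exact (hr ι _).2 (h K i hK.1 hK.2.1 hK.2.2 S hS M hM (low ι) ((central_iff ι).1 hι))

theorem forms (hP : ∀ S, C S → Nonempty (Pol S)) (hex : ∃ d, LiesIn e d) :
    [PhaseFor (Gen C) F, AllDet C e fun _ _ _ _ _ ι => DetPhase ι, PowPhase C e].TFAE := by
  have h := phase_forms hP e hex
  have h1 : GD.PhaseFor (Gen C) F ↔ GD.DetPhaseFor C e := h.out 0 1
  have h2 : GD.PhaseFor (Gen C) F ↔ GD.PowPhaseFor C e := h.out 0 2
  tfae_have 1 ↔ 2 := phaseFor_iff.trans (h1.trans det_iff.symm)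
  tfae_have 1 ↔ 3 := phaseFor_iff.trans (h2.trans pow_iff.symm)
  tfae_finish

theorem selfForms (hP : ∀ S, C S → Nonempty (Pol S)) (hex : ∃ d, LiesIn e d)
    (hs : AllDet C e fun _ _ _ S M _ => SelfConj S M) :
    (PhaseFor (Gen C) F ↔ AllDet C e fun _ _ _ _ _ ι => (∃ r, ConstType ι r) → DetPhase ι) ∧
    (TriplesFor (Gen C) e ↔ (AllDet C e fun _ _ e' _ _ ι => DetNorm ι e') ∧
      AllDet C e fun _ _ _ _ _ ι => (∃ r, ConstType ι r) → DetPhase ι) := by
  have h := self_forms hP e hex (self_iff.1 hs)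
  rw [const_iff, norm_iff]
  exact h

end cls

/-- The complexification of the rational form is everything. -/
theorem cx_B (S : Str) (x : S.W) : x ∈ S.cx S.B := DT.form_span S.B S.B_form x

theorem selfConj_of_real (hs : SelfConj S S.B) (hM : IsSimple S M)
    (h : ∀ M' : Submodule ℚ S.W, IsSimple S M' → (∀ p, hodgeNum S M' p = hodgeNum S M p) →
      Isom S M M') : SelfConj S M := by
  obtain ⟨J, hJ⟩ := selfConj_iff.1 hs
  let J' : S.W →ₛₗ[starRingEnd ℂ] S.W :=
    { toFun := fun x => (J ⟨x, cx_B S x⟩ : S.W)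
      map_add' := fun x y => by
        have h1 : (⟨x + y, cx_B S (x + y)⟩ : S.cx S.B) = ⟨x, cx_B S x⟩ + ⟨y, cx_B S y⟩ := rfl
        rw [h1, map_add]
        rfl
      map_smul' := fun c x => by
        have h1 : (⟨c • x, cx_B S (c • x)⟩ : S.cx S.B) = c • ⟨x, cx_B S x⟩ := rfl
        rw [h1, LinearMap.map_smulₛₗ]
        rfl }
  have hJ' : IsReal S J' := by
    refine ⟨fun x y hxy => ?_, fun x hx => hJ.betti _ hx, fun x hx => hJ.deRham _ hx,
      fun p x hx => hJ.hodge p _ hx⟩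
    have h1 : J ⟨x, cx_B S x⟩ = J ⟨y, cx_B S y⟩ := Subtype.ext hxy
    exact congrArg (fun t : S.cx S.B => (t : S.W)) (hJ.inj h1)
  exact selfConj_iff.2 (hJ'.selfConj hM fun M' h1 h2 => isom_iff.1 (h M' h1 h2))

end GD.Ph
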