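import Pool.Agent.H26.DT.Defs2

/-!
# Phases of periods: definitions

Everything is inside the structures `Str` (Betti, de Rham and Hodge data) of the earlier files.
-/

noncomputable section

namespace GD.Ph

open Complex

section basic

variable (S : Str) (M : Submodule ℚ S.W)

/-- The complexification of the rational subspace `M` of `S`. -/
def Cx : Type := S.cx M

instance : AddCommGroup (Cx S M) := Submodule.addCommGroup (S.cx M)

instance : Module ℂ (Cx S M) := Submodule.module (S.cx M)

variable {S M}

/-- The inclusion of the complexification of `M` in `S`. -/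
def vec (x : Cx S M) : S.W := Subtype.val (p := fun w => w ∈ S.cx M) x

/-- The map `f` preserves the rational vectors, the de Rham vectors and the Hodge types. -/
structure IsMor {M' : Submodule ℚ S.W} (f : Cx S M' → Cx S M) : Prop where
  betti : ∀ x, vec x ∈ M' → vec (f x) ∈ M
  deRham : ∀ x, vec x ∈ S.D → vec (f x) ∈ S.D
  hodge : ∀ p x, vec x ∈ S.hodge p → vec (f x) ∈ S.hodge p

variable (S M)

/-- `M` is self conjugate, that is, isomorphic to its complex conjugate: there is a semilinear
injective operator on the complexification of `M` which preserves `M`, the de Rham vectors and the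
Hodge pieces. For `M ⊂ H^m(X)` and `X` over a real field of algebraic numbers, the composite of
the complex conjugation of the coefficients and of the Frobenius at infinity is such an operator
if the Frobenius preserves `M`; in particular `H^m(X)` itself (`M = S.B`) is self conjugate. -/
def SelfConj : Prop :=
  ∃ J : Cx S M →ₛₗ[starRingEnd ℂ] Cx S M, Function.Injective J ∧ IsMor J

/-- There is an injective morphism from `M'` to `M` (an isomorphism if the Hodge numbers agree and
`M` is simple). -/
def Isom (M' : Submodule ℚ S.W) : Prop :=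
  ∃ g : Cx S M' →ₗ[ℂ] Cx S M, Function.Injective g ∧ IsMor g

/-- The Hodge numbers of `M`. -/
def hodgeNum (p : ℕ) : ℕ := Module.finrank ℂ (S.cx M ⊓ S.hodge p : Submodule ℂ S.W)

end basic

/-- The phase `z / |z|` is an algebraic number. -/
def AlgPhase (z : ℂ) : Prop := z ≠ 0 ∧ IsAlgebraic ℚ (z / (‖z‖ : ℂ))

section mult

variable {S : Str} {M : Submodule ℚ S.W} {K : Type} [Field K]
  (ι : K →+* Module.End ℂ (Cx S M))

/-- The field `K` acts on `M` through the centre of the algebra of endomorphisms of `M`. -/
def Central : Prop :=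
  (∀ a, IsMor (ι a)) ∧
    ∀ f : Module.End ℂ (Cx S M), IsMor f → ∀ a x, f (ι a x) = ι a (f x)

/-- The part `M_τ` of the complexification of `M` on which `K` acts through `τ`. -/
def part (τ : K →+* ℂ) : Submodule ℂ (Cx S M) := ⨅ a, Module.End.eigenspace (ι a) (τ a)

/-- The vectors of type `(p, q)` in the complexification of `M`. -/
def pure (S : Str) (M : Submodule ℚ S.W) (p : ℕ) : Submodule ℂ (Cx S M) :=
  (S.hodge p).comap (S.cx M).subtype

/-- The Hodge type of the determinant of `M_τ`: the sum of the `p` in the Hodge types `(p, q)` of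
`M_τ`, counted with multiplicity. -/
def typ (τ : K →+* ℂ) : ℕ :=
  ∑ p ∈ Finset.range (S.wt + 1), p * Module.finrank ℂ (part ι τ ⊓ pure S M p :)

/-- `z` is a determinant of periods of `M_τ`: the determinant of a matrix which expresses a basis
`ω` of `M_τ` consisting of de Rham vectors in a basis `v` of `M_τ` consisting of vectors of the
span of `M` over the algebraic numbers. -/
def IsDet (τ : K →+* ℂ) (z : ℂ) : Prop :=
  ∃ (n : ℕ) (v ω : Fin n → Cx S M) (P : Matrix (Fin n) (Fin n) ℂ),
    LinearIndependent ℂ v ∧ Submodule.span ℂ (Set.range v) = part ι τ ∧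
    LinearIndependent ℂ ω ∧ Submodule.span ℂ (Set.range ω) = part ι τ ∧
    (∀ j, vec (v j) ∈ Submodule.span Qbar (M : Set S.W)) ∧ (∀ j, vec (ω j) ∈ S.D) ∧
    (∀ i, ω i = ∑ j, P i j • v j) ∧ z = P.det

/-- Some involution `u` of `K` preserves the types of the determinants of the `M_τ` and relates
their periods to the complex conjugates of the periods. -/
def Reflected : Prop :=
  ∃ u : K →+* K, (∀ a, u (u a) = a) ∧ ∀ τ : K →+* ℂ, typ ι (τ.comp u) = typ ι τ ∧
    ∀ z z', IsDet ι τ z → IsDet ι (τ.comp u) z' → Sim (starRingEnd ℂ z) z'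

/-- All determinants of periods have algebraic phases. -/
def DetPhase : Prop := ∀ τ z, IsDet ι τ z → AlgPhase z

/-- The types of all determinants are equal to `r`. -/
def ConstType (r : ℕ) : Prop := ∀ τ, typ ι τ = r

/-- The Gross-Deligne relation between the absolute values for the determinant of `M` over `K`, at
the conductor. -/
def DetNorm (e : K →+* ℂ) : Prop :=
  ∀ (d : ℕ) [NeZero d], d = conductor e → ∀ ε : ZMod d → ℚ,
    (∀ (l : (ZMod d)ˣ) (τ : K →+* ℂ), IsPhi e d l τ → (d : ℚ) * typ ι τ =
        ∑ a ∈ Finset.univ.erase (0 : ZMod d), ε a * (((l : ZMod d) * a).val : ℚ)) →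
    ∀ (l : (ZMod d)ˣ) (τ : K →+* ℂ), IsPhi e d l τ → ∀ z, IsDet ι τ z →
      Sim (‖z‖ : ℂ) (gammaProd d ε l)

end mult

/-- The field `K`, embedded by `e` in the complex numbers, is imaginary and cyclic. -/
def ImCyc (K : Type) [Field K] [NumberField K] (e : K →+* ℂ) : Prop :=
  (∃ x, (e x).im ≠ 0) ∧ IsGalois ℚ K ∧ IsCyclic (K ≃ₐ[ℚ] K)

/-- `P` holds for the simple constituents `M` of the structures of the class `C` and the imaginary
cyclic fields `K` with an embedding `i` in `F` which act through the centre of the endomorphisms
of `M`. -/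
def AllDet (C : Str → Prop) {F : Type} [Field F] (e : F →+* ℂ)
    (P : ∀ (K : Type) [Field K] (_ : K →+* ℂ) (S : Str) (M : Submodule ℚ S.W)
      (_ : K →+* Module.End ℂ (Cx S M)), Prop) : Prop :=
  ∀ (K : Type) [Field K] [NumberField K] (i : K →+* F), ImCyc K (e.comp i) →
    ∀ S, C S → ∀ M : Submodule ℚ S.W, IsSimple S M →
      ∀ ι : K →+* Module.End ℂ (Cx S M), Central ι → P K (e.comp i) S M ι

section triple

/-- All periods of the triple have algebraic phases. -/
def TriplePhase {S : Str} {F : Type} [Field F] [NumberField F] (A : Adm S F) : Prop :=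
  ∀ σ z, A.IsPeriod σ z → AlgPhase z

/-- The operator by which an element of `F` acts. -/
def act {S : Str} {F : Type} [Field F] [NumberField F] (A : Adm S F) (a : F) :
    Cx S A.H → Cx S A.H := A.ι a

/-- Some involution `u` of `F` preserves the types of the lines `H_σ` and relates the periods to
the complex conjugates of the periods. -/
def TripleReflected {S : Str} {F : Type} [Field F] [NumberField F] (A : Adm S F) : Prop :=
  ∃ u : F →+* F, (∀ a, u (u a) = a) ∧ ∀ σ : F →+* ℂ,
    (∀ q, A.line σ ≤ S.hodge q → A.line (σ.comp u) ≤ S.hodge q) ∧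
    ∀ z z', A.IsPeriod σ z → A.IsPeriod (σ.comp u) z' → Sim (starRingEnd ℂ z) z'

/-- All periods of all admissible triples with multiplication by `F` in the structures of the
class `C` have algebraic phases. -/
def PhaseFor (C : Str → Prop) (F : Type) [Field F] [NumberField F] : Prop :=
  ∀ R, C R → ∀ A : Adm R F, TriplePhase A

/-- The phases of the periods of the triples with multiplication by imaginary cyclic fields `K`
with an embedding `i` in `F` in the tensor powers `T = S ^ ⊗ n` of the structures `S` of the
class `C` with `n * [K : ℚ] ≤ dim S` are algebraic. -/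
def PowPhase (C : Str → Prop) {F : Type} [Field F] (e : F →+* ℂ) : Prop :=
  ∀ (K : Type) [Field K] [NumberField K] (i : K →+* F), ImCyc K (e.comp i) →
    ∀ S, C S → ∀ (n : ℕ) (T : Str), n * Module.finrank ℚ K ≤ Module.finrank ℚ S.B →
      PowOf S n T → ∀ A : Adm T K, TriplePhase A

end triple

end GD.Ph
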