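import Pool.Agent.H46.GP.Iff

/-!
# Real structures: a criterion for self conjugacy
-/

noncomputable section

namespace GD

open Complex Module NumberField

variable {S : Str}

/-- The image of a rational subspace under a semilinear operator. -/
def imJ (J : S.W →ₛₗ[starRingEnd ℂ] S.W) (M : Submodule ℚ S.W) : Submodule ℚ S.W where
  carrier := {y | ∃ x ∈ M, J x = y}
  add_mem' := by
    rintro _ _ ⟨a, ha, rfl⟩ ⟨b, hb, rfl⟩
    exact ⟨a + b, M.add_mem ha hb, map_add J a b⟩
  zero_mem' := ⟨0, M.zero_mem, map_zero J⟩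
  smul_mem' := by
    rintro q _ ⟨a, ha, rfl⟩
    refine ⟨q • a, M.smul_mem q ha, ?_⟩
    rw [ratC_smul, ratC_smul, LinearMap.map_smulₛₗ, map_ratCast]

theorem mem_imJ {J : S.W →ₛₗ[starRingEnd ℂ] S.W} {M : Submodule ℚ S.W} {y : S.W} :
    y ∈ imJ J M ↔ ∃ x ∈ M, J x = y := Iff.rfl

theorem J_cx {J : S.W →ₛₗ[starRingEnd ℂ] S.W} {M : Submodule ℚ S.W} {x : S.W}
    (hx : x ∈ S.cx M) : J x ∈ S.cx (imJ J M) := by
  induction hx using Submodule.span_induction with
  | mem y hy => exact Submodule.subset_span ⟨y, hy, rfl⟩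
  | zero =>
    rw [map_zero]
    exact zero_mem _
  | add y z _ _ hy hz =>
    rw [map_add]
    exact add_mem hy hz
  | smul a y _ hy =>
    rw [LinearMap.map_smulₛₗ]
    exact Submodule.smul_mem _ _ hy

theorem exists_J_cx {J : S.W →ₛₗ[starRingEnd ℂ] S.W} {M : Submodule ℚ S.W} {y : S.W}
    (hy : y ∈ S.cx (imJ J M)) : ∃ x ∈ S.cx M, J x = y := by
  induction hy using Submodule.span_induction with
  | mem y hy =>
    obtain ⟨x, hx, rfl⟩ := hy
    exact ⟨x, Submodule.subset_span hx, rfl⟩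
  | zero => exact ⟨0, zero_mem _, map_zero J⟩
  | add y z _ _ hy hz =>
    obtain ⟨a, ha, rfl⟩ := hy
    obtain ⟨b, hb, rfl⟩ := hz
    exact ⟨a + b, add_mem ha hb, map_add J a b⟩
  | smul c y _ hy =>
    obtain ⟨a, ha, rfl⟩ := hy
    refine ⟨starRingEnd ℂ c • a, Submodule.smul_mem _ _ ha, ?_⟩
    rw [LinearMap.map_smulₛₗ, Complex.conj_conj]

/-- A real structure maps substructures to substructures. -/
theorem IsReal.isSub {J : S.W →ₛₗ[starRingEnd ℂ] S.W} (hJ : IsReal S J) {M : Submodule ℚ S.W}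
    (hM : IsSub S M) : IsSub S (imJ J M) := by
  refine ⟨?_, ?_, ?_⟩
  · rintro _ ⟨x, hx, rfl⟩
    exact hJ.betti x (hM.le hx)
  · intro y hy
    obtain ⟨x, hx, rfl⟩ := exists_J_cx hy
    obtain ⟨u, hu1, hu2, hxu⟩ := hodge_comp hM.hodge hx
    rw [hxu, map_sum]
    exact Submodule.sum_mem _ fun p _ =>
      Submodule.mem_iSup_of_mem p ⟨J_cx (hu1 p), hJ.hodge p _ (hu2 p)⟩
  · intro y hy
    obtain ⟨x, hx, rfl⟩ := exists_J_cx hy
    have h1 := hM.deRham hx
    clear hx hy
    induction h1 using Submodule.span_induction with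
    | mem z hz => exact Submodule.subset_span ⟨hJ.deRham z hz.1, J_cx hz.2⟩
    | zero =>
      rw [map_zero]
      exact zero_mem _
    | add y z _ _ hy hz =>
      rw [map_add]
      exact add_mem hy hz
    | smul a y _ hy =>
      rw [LinearMap.map_smulₛₗ]
      exact Submodule.smul_mem _ _ hy

/-- The inverse of a real structure. -/
theorem IsReal.exists_inv {J : S.W →ₛₗ[starRingEnd ℂ] S.W} (hJ : IsReal S J) :
    ∃ J' : S.W →ₛₗ[starRingEnd ℂ] S.W, IsReal S J' ∧ (∀ x, J (J' x) = x) ∧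
      ∀ x, J' (J x) = x := by
  let f : S.W →ₗ[ℂ] S.W :=
    { toFun := fun x => J (J x)
      map_add' := fun x y => by rw [map_add, map_add]
      map_smul' := fun c x => by
        rw [LinearMap.map_smulₛₗ, LinearMap.map_smulₛₗ, Complex.conj_conj]
        rfl }
  have hf : ∀ x, f x = J (J x) := fun _ => rfl
  have hinj : Function.Injective f := fun x y h => hJ.inj (hJ.inj h)
  haveI := S.finite_B
  haveI := S.finite_D
  have hsurj : Function.Surjective f := LinearMap.injective_iff_surjective.1 hinj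
  let e : S.W ≃ₗ[ℂ] S.W := LinearEquiv.ofBijective f ⟨hinj, hsurj⟩
  have h1 : ∀ x, f (e.symm x) = x := fun x => e.apply_symm_apply x
  have h2 : ∀ x, e.symm (f x) = x := fun x => e.symm_apply_apply x
  let J' : S.W →ₛₗ[starRingEnd ℂ] S.W :=
    { toFun := fun x => J (e.symm x)
      map_add' := fun x y => by rw [map_add, map_add]
      map_smul' := fun c x => by rw [map_smul, LinearMap.map_smulₛₗ] }
  have h3 : ∀ x, J (J' x) = x := fun x => h1 x
  have h4 : ∀ x, J' (J x) = x := fun x => hJ.inj (h3 (J x))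
  refine ⟨J', ⟨fun x y h => ?_, fun x hx => ?_, fun x hx => ?_, fun p x hx => ?_⟩, h3, h4⟩
  · rw [← h3 x, ← h3 y, h]
  · obtain ⟨y, hy, rfl⟩ := surj_form S.B f hinj (fun z hz => hJ.betti _ (hJ.betti z hz)) x hx
    change J (e.symm (f y)) ∈ S.B
    rw [h2]
    exact hJ.betti y hy
  · obtain ⟨y, hy, rfl⟩ := surj_form S.D f hinj (fun z hz => hJ.deRham _ (hJ.deRham z hz)) x hx
    change J (e.symm (f y)) ∈ S.D
    rw [h2]
    exact hJ.deRham y hy
  · obtain ⟨y, hy, rfl⟩ := surj_form (S.hodge p) f hinj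
      (fun z hz => hJ.hodge p _ (hJ.hodge p z hz)) x hx
    change J (e.symm (f y)) ∈ S.hodge p
    rw [h2]
    exact hJ.hodge p y hy

theorem imJ_imJ {J J' : S.W →ₛₗ[starRingEnd ℂ] S.W} (h : ∀ x, J (J' x) = x)
    (M : Submodule ℚ S.W) : imJ J (imJ J' M) = M := by
  ext y
  rw [mem_imJ]
  constructor
  · rintro ⟨_, ⟨x, hx, rfl⟩, rfl⟩
    rw [h]
    exact hx
  · intro hy
    exact ⟨J' y, ⟨y, hy, rfl⟩, h y⟩

/-- A real structure maps simple substructures to simple substructures. -/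
theorem IsReal.isSimple {J : S.W →ₛₗ[starRingEnd ℂ] S.W} (hJ : IsReal S J)
    {M : Submodule ℚ S.W} (hM : IsSimple S M) : IsSimple S (imJ J M) := by
  obtain ⟨J', hJ', h1, h2⟩ := hJ.exists_inv
  refine ⟨hJ.isSub hM.sub, fun h => hM.ne ?_, fun N hN hs => ?_⟩
  · rw [← imJ_imJ h2 M, h, Submodule.eq_bot_iff]
    rintro _ ⟨x, hx, rfl⟩
    rw [Submodule.mem_bot] at hx
    rw [hx, map_zero]
  · have h3 : imJ J' N ≤ M := by
      rintro _ ⟨x, hx, rfl⟩
      obtain ⟨y, hy, rfl⟩ := hN hx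
      rw [h2]
      exact hy
    rcases hM.min _ h3 (hJ'.isSub hs) with h4 | h4
    · left
      rw [← imJ_imJ h1 N, h4, Submodule.eq_bot_iff]
      rintro _ ⟨x, hx, rfl⟩
      rw [Submodule.mem_bot] at hx
      rw [hx, map_zero]
    · right
      rw [← imJ_imJ h1 N, h4]

theorem IsReal.hodgeNum_le {J : S.W →ₛₗ[starRingEnd ℂ] S.W} (hJ : IsReal S J)
    (M : Submodule ℚ S.W) (p : ℕ) : hodgeNum S M p ≤ hodgeNum S (imJ J M) p := by
  let U : Submodule ℂ S.W := S.cx M ⊓ S.hodge p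
  let b := Module.finBasis ℂ U
  have h1 : LinearIndependent ℂ (fun i => (b i : S.W)) :=
    b.linearIndependent.map' U.subtype (Submodule.ker_subtype U)
  have h2 : LinearIndependent ℂ (fun i => J (b i : S.W)) := by
    rw [Fintype.linearIndependent_iff]
    intro g hg
    have h3 : J (∑ i, starRingEnd ℂ (g i) • (b i : S.W)) = 0 := by
      rw [map_sum, ← hg]
      refine Finset.sum_congr rfl fun i _ => ?_
      rw [LinearMap.map_smulₛₗ, Complex.conj_conj]
    have h4 := hJ.inj (h3.trans (map_zero J).symm)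
    intro i
    exact (map_eq_zero _).1 (Fintype.linearIndependent_iff.1 h1 _ h4 i)
  have h3 : ∀ i, J (b i : S.W) ∈ (S.cx (imJ J M) ⊓ S.hodge p : Submodule ℂ S.W) :=
    fun i => ⟨J_cx (b i).2.1, hJ.hodge p _ (b i).2.2⟩
  have h4 : LinearIndependent ℂ (fun i =>
      (⟨J (b i : S.W), h3 i⟩ : (S.cx (imJ J M) ⊓ S.hodge p : Submodule ℂ S.W))) := by
    apply LinearIndependent.of_comp (S.cx (imJ J M) ⊓ S.hodge p : Submodule ℂ S.W).subtype
    exact h2
  have h5 := h4.fintype_card_le_finrank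
  rw [Fintype.card_fin] at h5
  exact h5

/-- If all simple substructures with the Hodge numbers of `M` are isomorphic to `M`, then `M` is
self conjugate. -/
theorem IsReal.selfConj {J : S.W →ₛₗ[starRingEnd ℂ] S.W} (hJ : IsReal S J)
    {M : Submodule ℚ S.W} (hM : IsSimple S M)
    (h : ∀ M' : Submodule ℚ S.W, IsSimple S M' → (∀ p, hodgeNum S M' p = hodgeNum S M p) →
      Isom S M' M) : SelfConj S M := by
  obtain ⟨J', hJ', h1, h2⟩ := hJ.exists_inv
  have h3 : ∀ p, hodgeNum S (imJ J M) p = hodgeNum S M p := by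
    intro p
    refine le_antisymm ?_ (hJ.hodgeNum_le M p)
    have h4 := hJ'.hodgeNum_le (imJ J M) p
    rwa [imJ_imJ h2] at h4
  obtain ⟨g, hg1, hg2, hg3, hg4⟩ := h _ (hJ.isSimple hM) h3
  let K : S.cx M →ₛₗ[starRingEnd ℂ] S.cx M :=
    { toFun := fun x => g ⟨J (x : S.W), J_cx x.2⟩
      map_add' := fun x y => by
        rw [← map_add]
        congr 1
        apply Subtype.ext
        exact map_add J (x : S.W) y
      map_smul' := fun c x => by
        rw [← map_smul]
        congr 1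
        apply Subtype.ext
        exact LinearMap.map_smulₛₗ J c (x : S.W) }
  refine ⟨K, ?_, ?_, ?_, ?_⟩
  · intro x y hxy
    have h4 := hg1 hxy
    apply Subtype.ext
    exact hJ.inj (congrArg (fun t : S.cx (imJ J M) => (t : S.W)) h4)
  · intro x hx
    exact hg2 _ ⟨x, hx, rfl⟩
  · intro x hx
    exact hg3 _ (hJ.deRham _ hx)
  · intro p x hx
    exact hg4 p _ (hJ.hodge p _ hx)

end GD
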