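import Pool.Agent.H46.GP.Inv

/-!
# The action of a reflection on the field of multiplications
-/

noncomputable section

namespace GD

open Complex Module NumberField

variable {S : Str} {M : Submodule ℚ S.W}

theorem IsSimple.nontrivial (hM : IsSimple S M) : Nontrivial (S.cx M) := by
  rw [Submodule.nontrivial_iff_ne_bot]
  intro h
  apply hM.ne
  rw [Submodule.eq_bot_iff]
  intro x hx
  have h1 : x ∈ S.cx M := Submodule.subset_span hx
  rw [h, Submodule.mem_bot] at h1
  exact h1

/-- A family of operators in the image of a field which is additive and multiplicative. -/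
theorem exists_lift {K E : Type} [Field K] [Field E] {A : Type} [Ring A] [Nontrivial A]
    (κ : K → A) (h1 : κ 1 = 1) (hadd : ∀ a b, κ (a + b) = κ a + κ b)
    (hmul : ∀ a b, κ (a * b) = κ a * κ b) (j : E →+* A) (h : ∀ a, ∃ b, κ a = j b) :
    ∃ i : K →+* E, ∀ a, κ a = j (i a) := by
  choose i hi using h
  have hinj : Function.Injective j := j.injective
  have h0 : κ 0 = 0 := by
    have := hadd 0 0
    rw [add_zero] at this
    exact left_eq_add.1 this
  refine ⟨{ toFun := i, map_one' := ?_, map_mul' := ?_, map_zero' := ?_, map_add' := ?_ }, hi⟩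
  · apply hinj
    rw [← hi, h1, map_one]
  · intro a b
    apply hinj
    rw [← hi, hmul, map_mul, ← hi, ← hi]
  · apply hinj
    rw [← hi, h0, map_zero]
  · intro a b
    apply hinj
    rw [← hi, hadd, map_add, ← hi, ← hi]

/-- Two embeddings of a Galois field differ by an automorphism. -/
theorem exists_aut {K E : Type} [Field K] [NumberField K] [IsGalois ℚ K] [Field E] [CharZero E]
    (i k : K →+* E) : ∃ θ : K ≃ₐ[ℚ] K, ∀ a, k a = i (θ a) := by
  letI : Algebra K E := i.toAlgebra
  haveI : IsScalarTower ℚ K E := IsScalarTower.of_algebraMap_eq' (Subsingleton.elim _ _)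
  refine ⟨Normal.algHomEquivAut ℚ E K k.toRatAlgHom, fun a => ?_⟩
  have h := (Normal.algHomEquivAut ℚ E K).symm_apply_apply k.toRatAlgHom
  have h1 := congrArg (fun t : K →ₐ[ℚ] E => t a) h
  exact h1.symm

/-- A reflection acts on a Galois field of central endomorphisms of a simple substructure by an
automorphism of order at most two. -/
theorem exists_theta (P : Pol S) (hM : IsSimple S M) {J : S.cx M →ₛₗ[starRingEnd ℂ] S.cx M}
    (hJ : IsRefl S M J) {K : Type} [Field K] [NumberField K] [IsGalois ℚ K]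
    (ι : K →+* Module.End ℂ (S.cx M)) (hι : IsCentral ι) :
    ∃ θ : K ≃ₐ[ℚ] K, (∀ a x, J (ι a x) = ι (θ a) (J x)) ∧ θ * θ = 1 := by
  haveI := hM.nontrivial
  obtain ⟨J', hJ', h1, h2⟩ := hJ.exists_inv hM.sub.le
  obtain ⟨E, _, _, ιE, hE, hcen, -⟩ := exists_center P hM
  have hc1 : ∀ a, ∃ b, ι a = ιE b := fun a =>
    hcen (ι a) (hι.isEnd a) fun g hg => (hι.comm g hg a).symm
  have hc2 : ∀ a, ∃ b, cjJ J J' (ι a) = ιE b := by
    intro a
    refine hcen _ ((hι.isEnd a).cj hJ hJ') fun g hg => ?_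
    have h3 := hι.comm _ (hg.cj hJ' hJ) a
    apply LinearMap.ext
    intro x
    have h4 := congrArg (fun t : Module.End ℂ (S.cx M) => J (t (J' x))) h3
    have h5 : J ((cjJ J' J g * ι a) (J' x)) = (g * cjJ J J' (ι a)) x := by
      change J (J' (g (J (ι a (J' x))))) = g (J (ι a (J' x)))
      rw [h1]
    have h6 : J ((ι a * cjJ J' J g) (J' x)) = (cjJ J J' (ι a) * g) x := by
      change J (ι a (J' (g (J (J' x))))) = J (ι a (J' (g x)))
      rw [h1]
    rw [← h5, ← h6]
    exact h4.symm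
  obtain ⟨i, hi⟩ := exists_lift (fun a => ι a) (map_one ι) (map_add ι) (map_mul ι) ιE hc1
  obtain ⟨k, hk⟩ := exists_lift (fun a => cjJ J J' (ι a))
    (by
      apply LinearMap.ext
      intro x
      change J (ι 1 (J' x)) = x
      rw [map_one]
      exact h1 x)
    (by
      intro a b
      apply LinearMap.ext
      intro x
      change J (ι (a + b) (J' x)) = J (ι a (J' x)) + J (ι b (J' x))
      rw [map_add, LinearMap.add_apply, map_add])
    (by
      intro a b
      apply LinearMap.ext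
      intro x
      change J (ι (a * b) (J' x)) = J (ι a (J' (J (ι b (J' x)))))
      rw [h2, map_mul]
      rfl) ιE hc2
  obtain ⟨θ, hθ⟩ := exists_aut i k
  have key : ∀ a x, J (ι a x) = ι (θ a) (J x) := by
    intro a x
    have h3 : cjJ J J' (ι a) = ι (θ a) := by
      have h4 : cjJ J J' (ι a) = ιE (k a) := hk a
      have h5 : ι (θ a) = ιE (i (θ a)) := hi (θ a)
      rw [h4, h5, hθ]
    rw [← h3]
    change J (ι a x) = J (ι a (J' (J x)))
    rw [h2]
  refine ⟨θ, key, ?_⟩
  apply AlgEquiv.ext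
  intro a
  rw [AlgEquiv.mul_apply, AlgEquiv.one_apply]
  by_contra hne
  obtain ⟨x, hx⟩ := exists_ne (0 : S.cx M)
  have hsq : IsEnd S M (sqJ J) :=
    ⟨fun x hx => hJ.betti _ (hJ.betti x hx), fun x hx => hJ.deRham _ (hJ.deRham x hx),
      fun p x hx => hJ.hodge p _ (hJ.hodge p x hx)⟩
  have h3 := congrArg (fun t : Module.End ℂ (S.cx M) => t x) (hι.comm _ hsq a)
  have h4 : J (J (ι a x)) = ι a (J (J x)) := h3
  rw [key, key] at h4
  have h5 : ι (θ (θ a) - a) (J (J x)) = 0 := by
    rw [map_sub, LinearMap.sub_apply, h4, sub_self]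
  have h6 : (J (J x)) ≠ 0 := by
    intro h
    apply hx
    have h7 : J (J x) = J (J 0) := by rw [h, map_zero, map_zero]
    exact hJ.inj (hJ.inj h7)
  apply h6
  have h7 : θ (θ a) - a ≠ 0 := sub_ne_zero.2 hne
  have h8 : ι ((θ (θ a) - a)⁻¹) (ι (θ (θ a) - a) (J (J x))) = J (J x) := by
    have h9 : ι ((θ (θ a) - a)⁻¹) * ι (θ (θ a) - a) = 1 := by
      rw [← map_mul, inv_mul_cancel₀ h7, map_one]
    exact congrArg (fun t : Module.End ℂ (S.cx M) => t (J (J x))) h9
  rw [← h8, h5, map_zero]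

/-- Complex conjugation of an imaginary abelian field. -/
theorem exists_cc {K : Type} [Field K] [NumberField K] [IsGalois ℚ K]
    (hcomm : ∀ x y : (K ≃ₐ[ℚ] K), x * y = y * x) (e : K →+* ℂ) :
    ∃ c : K ≃ₐ[ℚ] K, (∀ (τ : K →+* ℂ) a, τ (c a) = starRingEnd ℂ (τ a)) ∧ c * c = 1 := by
  obtain ⟨c, hc⟩ := exists_aut e (ComplexEmbedding.conjugate e)
  have h1 : ∀ (τ : K →+* ℂ) a, τ (c a) = starRingEnd ℂ (τ a) := by
    intro τ a
    obtain ⟨g, hg⟩ := exists_aut e τ
    have h2 : g (c a) = c (g a) := congrArg (fun t : K ≃ₐ[ℚ] K => t a) (hcomm g c)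
    rw [hg, h2, ← hc, hg]
    rfl
  refine ⟨c, h1, ?_⟩
  apply AlgEquiv.ext
  intro a
  rw [AlgEquiv.mul_apply, AlgEquiv.one_apply]
  apply e.injective
  rw [h1, h1, Complex.conj_conj]

/-- In an imaginary cyclic field an automorphism of order at most two is the identity or the
complex conjugation. -/
theorem theta_cases {K : Type} [Field K] [NumberField K] (hG : IsGalois ℚ K)
    (hcyc : IsCyclic (K ≃ₐ[ℚ] K)) (e : K →+* ℂ) (him : ∃ x, (e x).im ≠ 0) {θ : K ≃ₐ[ℚ] K}
    (hθ : θ * θ = 1) :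
    θ = 1 ∨ ∀ (τ : K →+* ℂ) a, τ (θ a) = starRingEnd ℂ (τ a) := by
  classical
  have hcomm : ∀ x y : (K ≃ₐ[ℚ] K), x * y = y * x := by
    intro x y
    obtain ⟨g, hg⟩ := hcyc.exists_generator
    obtain ⟨a, rfl⟩ := Subgroup.mem_zpowers_iff.1 (hg x)
    obtain ⟨b, rfl⟩ := Subgroup.mem_zpowers_iff.1 (hg y)
    rw [← zpow_add, ← zpow_add, add_comm]
  obtain ⟨c, hc, hcc⟩ := exists_cc hcomm e
  by_cases h1 : θ = 1
  · exact Or.inl h1
  right
  have hc1 : c ≠ 1 := by
    rintro rfl
    obtain ⟨x, hx⟩ := him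
    apply hx
    have h2 := hc e x
    rw [AlgEquiv.one_apply] at h2
    exact Complex.conj_eq_iff_im.1 h2.symm
  have h2 : θ = c := by
    by_contra hne
    haveI : Fintype (K ≃ₐ[ℚ] K) := Fintype.ofFinite _
    have h3 := IsCyclic.card_pow_eq_one_le (α := K ≃ₐ[ℚ] K) (n := 2) (by norm_num)
    have h4 : ({1, c, θ} : Finset (K ≃ₐ[ℚ] K)) ⊆
        Finset.univ.filter (fun a : K ≃ₐ[ℚ] K => a ^ 2 = 1) := by
      intro a ha
      rw [Finset.mem_filter]
      refine ⟨Finset.mem_univ _, ?_⟩
      simp only [Finset.mem_insert, Finset.mem_singleton] at ha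
      rcases ha with rfl | rfl | rfl
      · exact one_pow 2
      · rw [pow_two, hcc]
      · rw [pow_two, hθ]
    have h5 : ({1, c, θ} : Finset (K ≃ₐ[ℚ] K)).card = 3 := by
      rw [Finset.card_insert_of_notMem, Finset.card_insert_of_notMem, Finset.card_singleton]
      · simpa using fun h => hne h.symm
      · simp only [Finset.mem_insert, Finset.mem_singleton, not_or]
        exact ⟨fun h => hc1 h.symm, fun h => h1 h.symm⟩
    have h6 := Finset.card_le_card h4
    omega
  rw [h2]
  exact hc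

end GD
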