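import Pool.Agent.H46.GP.Lite
import Pool.Agent.H46.GP.Real

/-!
# Translation between the two forms of the definitions
-/

noncomputable section

namespace GD.Ph

open Complex Module NumberField

variable {S : Str} {M : Submodule ℚ S.W}

theorem isMor_end {f : Module.End ℂ (Cx S M)} :
    IsMor (M' := M) (M := M) f ↔ GD.IsEnd S M (f : Module.End ℂ (S.cx M)) :=
  ⟨fun h => ⟨h.betti, h.deRham, h.hodge⟩, fun h => ⟨h.betti, h.deRham, h.hodge⟩⟩

theorem isMor_refl {J : Cx S M →ₛₗ[starRingEnd ℂ] Cx S M} :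
    (Function.Injective J ∧ IsMor (M' := M) (M := M) J) ↔
      GD.IsRefl S M (J : S.cx M →ₛₗ[starRingEnd ℂ] S.cx M) :=
  ⟨fun h => ⟨h.1, h.2.betti, h.2.deRham, h.2.hodge⟩,
    fun h => ⟨h.inj, ⟨h.betti, h.deRham, h.hodge⟩⟩⟩

theorem selfConj_iff : SelfConj S M ↔ GD.SelfConj S M :=
  ⟨fun ⟨J, hJ⟩ => ⟨J, isMor_refl.1 hJ⟩, fun ⟨J, hJ⟩ => ⟨J, isMor_refl.2 hJ⟩⟩

theorem isom_iff {M' : Submodule ℚ S.W} : Isom S M M' ↔ GD.Isom S M' M :=
  ⟨fun ⟨g, hg, h⟩ => ⟨g, hg, h.betti, h.deRham, h.hodge⟩,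
    fun ⟨g, hg, h1, h2, h3⟩ => ⟨g, hg, ⟨h1, h2, h3⟩⟩⟩

section mult

variable {K : Type} [Field K] (ι : K →+* Module.End ℂ (Cx S M))

/-- The same action with values in the other form of the operators. -/
def low : K →+* Module.End ℂ (S.cx M) := ι

theorem central_iff : Central ι ↔ GD.IsCentral (low ι) := by
  constructor
  · rintro ⟨h1, h2⟩
    refine ⟨fun a => isMor_end.1 (h1 a), fun f hf a => ?_⟩
    apply LinearMap.ext
    intro x
    exact h2 f (isMor_end.2 hf) a x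
  · rintro ⟨h1, h2⟩
    refine ⟨fun a => isMor_end.2 (h1 a), fun f hf a x => ?_⟩
    exact congrArg (fun t : Module.End ℂ (S.cx M) => t x) (h2 f (isMor_end.1 hf) a)

theorem map_part (τ : K →+* ℂ) :
    Submodule.map (S.cx M).subtype (part ι τ : Submodule ℂ (S.cx M)) = GD.eig (low ι) τ := rfl

theorem typ_eq (τ : K →+* ℂ) : typ ι τ = detType (low ι) τ := by
  unfold typ detType
  refine Finset.sum_congr rfl fun p _ => ?_
  congr 1
  have h1 : Submodule.map (S.cx M).subtype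
      ((part ι τ : Submodule ℂ (S.cx M)) ⊓ (S.hodge p).comap (S.cx M).subtype) =
      (GD.eig (low ι) τ ⊓ S.hodge p : Submodule ℂ S.W) := by
    rw [← map_part]
    ext w
    constructor
    · rintro ⟨x, ⟨hx1, hx2⟩, rfl⟩
      exact ⟨⟨x, hx1, rfl⟩, hx2⟩
    · rintro ⟨⟨x, hx1, rfl⟩, hx2⟩
      exact ⟨x, ⟨hx1, hx2⟩, rfl⟩
  have h2 := LinearEquiv.finrank_eq (Submodule.equivMapOfInjective (S.cx M).subtype
    Subtype.val_injective
    ((part ι τ : Submodule ℂ (S.cx M)) ⊓ (S.hodge p).comap (S.cx M).subtype))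
  rw [h1] at h2
  exact h2

theorem isDet_iff (τ : K →+* ℂ) (z : ℂ) : IsDet ι τ z ↔ IsDetPeriod (low ι) τ z := by
  have hspan : ∀ {n : ℕ} (v : Fin n → S.cx M),
      Submodule.span ℂ (Set.range v) = (part ι τ : Submodule ℂ (S.cx M)) ↔
        Submodule.span ℂ (Set.range fun i => (v i : S.W)) = GD.eig (low ι) τ := by
    intro n v
    have h1 : Submodule.span ℂ (Set.range fun i => (v i : S.W)) =
        Submodule.map (S.cx M).subtype (Submodule.span ℂ (Set.range v)) := by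
      rw [Submodule.map_span]
      congr 1
      ext w
      constructor
      · rintro ⟨i, rfl⟩
        exact ⟨v i, ⟨i, rfl⟩, rfl⟩
      · rintro ⟨_, ⟨i, rfl⟩, rfl⟩
        exact ⟨i, rfl⟩
    rw [h1, ← map_part]
    constructor
    · intro h
      rw [h]
    · intro h
      exact Submodule.map_injective_of_injective Subtype.val_injective h
  have hlin : ∀ {n : ℕ} (v : Fin n → S.cx M), LinearIndependent ℂ v ↔
      LinearIndependent ℂ (fun i => (v i : S.W)) := by
    intro n v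
    constructor
    · intro h
      exact h.map' (S.cx M).subtype (Submodule.ker_subtype _)
    · intro h
      exact LinearIndependent.of_comp (S.cx M).subtype h
  constructor
  · rintro ⟨n, v, ω, P, hv, hvs, hω, hωs, h1, h2, h3, rfl⟩
    refine ⟨n, fun i => vec (v i), fun i => vec (ω i), P, (hlin v).1 hv, (hspan v).1 hvs,
      (hlin ω).1 hω, (hspan ω).1 hωs, h1, h2, fun i => ?_, rfl⟩
    change vec (ω i) = _
    have h5 : vec (ω i) = ((∑ j, P i j • (v j : S.cx M) : S.cx M) : S.W) :=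
      congrArg (fun x : S.cx M => (x : S.W)) (h3 i)
    rw [h5, AddSubmonoidClass.coe_finsetSum]
    rfl
  · rintro ⟨n, v, ω, P, hv, hvs, hω, hωs, h1, h2, h3, rfl⟩
    have hvm : ∀ i, v i ∈ S.cx M := fun i =>
      eig_le (low ι) τ (hvs ▸ Submodule.subset_span ⟨i, rfl⟩)
    have hωm : ∀ i, ω i ∈ S.cx M := fun i =>
      eig_le (low ι) τ (hωs ▸ Submodule.subset_span ⟨i, rfl⟩)
    let v' : Fin n → S.cx M := fun i => ⟨v i, hvm i⟩
    let ω' : Fin n → S.cx M := fun i => ⟨ω i, hωm i⟩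
    refine ⟨n, v', ω', P, (hlin v').2 hv, (hspan v').2 hvs, (hlin ω').2 hω, (hspan ω').2 hωs,
      h1, h2, fun i => ?_, rfl⟩
    have h5 : ω' i = ∑ j, P i j • v' j := by
      apply Subtype.ext
      rw [AddSubmonoidClass.coe_finsetSum]
      exact h3 i
    exact h5

end mult

theorem detPhase_iff {K : Type} [Field K] (ι : K →+* Module.End ℂ (Cx S M)) :
    DetPhase ι ↔ ∀ τ z, IsDetPeriod (low ι) τ z → GD.AlgPhase z :=
  ⟨fun h τ z hz => h τ z ((isDet_iff ι τ z).2 hz), fun h τ z hz => h τ z ((isDet_iff ι τ z).1 hz)⟩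

end GD.Ph
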