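import Pool.Agent.H46.GP.Types

/-!
# Self conjugate simple admissible triples
-/

noncomputable section

namespace GD

open Complex Module NumberField

variable {S : Str} {F : Type} [Field F] [NumberField F] {A : Adm S F} {f : Fam S F}

theorem Attached.v_cx (hf : Attached A f) (σ : F →+* ℂ) : f.v σ ∈ S.cx A.H := (hf.line σ).1

theorem Attached.iota_v (hf : Attached A f) (σ : F →+* ℂ) (a : F) :
    A.ι a ⟨f.v σ, hf.v_cx σ⟩ = σ a • ⟨f.v σ, hf.v_cx σ⟩ := (hf.line σ).2 a

/-- Vectors of the complexification in the eigenvectors. -/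
theorem Attached.exp (hf : Attached A f) (x : S.cx A.H) :
    ∃ t : (F →+* ℂ) → ℂ, x = ∑ σ, t σ • (⟨f.v σ, hf.v_cx σ⟩ : S.cx A.H) := by
  have h1 := hf.span_le x.2
  rw [Submodule.mem_span_range_iff_exists_fun] at h1
  obtain ⟨t, ht⟩ := h1
  refine ⟨t, Subtype.ext ?_⟩
  rw [AddSubmonoidClass.coe_finsetSum]
  exact ht.symm

/-- The action preserves the de Rham vectors. -/
theorem Attached.deRham_act (hf : Attached A f) (a : F) (x : S.cx A.H) (hx : (x : S.W) ∈ S.D) :
    (A.ι a x : S.W) ∈ S.D := by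
  obtain ⟨t, rfl⟩ := hf.exp x
  have hlin : LinearIndependent ℂ (fun σ => f.c σ • f.v σ) :=
    f.lin.units_smul (fun σ => Units.mk0 (f.c σ) (f.c_ne σ))
  have hx' : ∑ σ, (t σ / f.c σ) • (f.c σ • f.v σ) ∈ S.D := by
    have h2 : ((∑ σ, t σ • (⟨f.v σ, hf.v_cx σ⟩ : S.cx A.H) : S.cx A.H) : S.W) =
        ∑ σ, (t σ / f.c σ) • (f.c σ • f.v σ) := by
      rw [AddSubmonoidClass.coe_finsetSum]
      refine Finset.sum_congr rfl fun σ _ => ?_
      rw [smul_smul, div_mul_cancel₀ _ (f.c_ne σ)]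
      rfl
    rw [← h2]
    exact hx
  have halg : ∀ σ, IsAlgebraic ℚ (t σ / f.c σ) := by
    intro σ
    apply isAlgebraic_of_der
    intro δ
    have h4 := S.nabD_D δ hx'
    rw [map_sum] at h4
    have h5 : ∑ σ, δ (t σ / f.c σ) • (f.c σ • f.v σ) = 0 := by
      rw [← h4]
      refine Finset.sum_congr rfl fun σ _ => ?_
      rw [S.nabD_smul, S.nabD_D δ (f.dR σ), smul_zero, add_zero]
    exact Fintype.linearIndependent_iff.1 hlin _ h5 σ
  rw [map_sum, AddSubmonoidClass.coe_finsetSum]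
  refine Submodule.sum_mem _ fun σ _ => ?_
  rw [map_smul, hf.iota_v, Submodule.coe_smul, Submodule.coe_smul]
  change t σ • (σ a • f.v σ) ∈ S.D
  have h6 : t σ • (σ a • f.v σ) = (σ a * (t σ / f.c σ)) • (f.c σ • f.v σ) := by
    rw [smul_smul, smul_smul]
    congr 1
    have := f.c_ne σ
    field_simp
  rw [h6]
  exact S.D_smul ((emb_alg F σ a).mul (halg σ)) (f.dR σ)

/-- The endomorphisms given by the action. -/
theorem Attached.isEnd (hf : Attached A f) (a : F) : IsEnd S A.H (A.ι a) :=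
  ⟨fun x hx => A.ι_rat a x hx, fun x hx => hf.deRham_act a x hx,
    fun p x hx => A.ι_hodge a p x hx⟩

theorem IsEnd.sub {M : Submodule ℚ S.W} {f g : Module.End ℂ (S.cx M)} (hf : IsEnd S M f)
    (hg : IsEnd S M g) : IsEnd S M (f - g) :=
  ⟨fun x h => sub_mem (hf.betti x h) (hg.betti x h),
    fun x h => sub_mem (hf.deRham x h) (hg.deRham x h),
    fun p x h => sub_mem (hf.hodge p x h) (hg.hodge p x h)⟩

/-- The action on a simple triple is central. -/
theorem Attached.central (hf : Attached A f) (P : Pol S) (hs : IsSimple S A.H) :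
    IsCentral A.ι := by
  refine ⟨hf.isEnd, fun g hg a => ?_⟩
  -- a nonzero rational vector
  obtain ⟨h0, hh0, hne⟩ := Submodule.exists_mem_ne_zero_of_ne_bot hs.ne
  let x0 : S.cx A.H := ⟨h0, Submodule.subset_span hh0⟩
  obtain ⟨x, hx⟩ := (hf.mem h0).1 hh0
  have hx0 : x ≠ 0 := by
    rintro rfl
    apply hne
    rw [hx]
    exact Finset.sum_eq_zero fun σ _ => by rw [map_zero, zero_smul]
  obtain ⟨y, hy⟩ := (hf.mem _).1 (hg.betti x0 hh0)
  -- `g` agrees with the multiplication by `y / x` on `x0`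
  have hx0' : x0 = ∑ σ, σ x • (⟨f.v σ, hf.v_cx σ⟩ : S.cx A.H) := by
    apply Subtype.ext
    rw [AddSubmonoidClass.coe_finsetSum]
    exact hx
  have h1 : g x0 = A.ι (y / x) x0 := by
    conv_rhs => rw [hx0', map_sum]
    apply Subtype.ext
    rw [AddSubmonoidClass.coe_finsetSum, hy]
    refine Finset.sum_congr rfl fun σ _ => ?_
    rw [map_smul, hf.iota_v, smul_smul]
    change σ y • f.v σ = (σ x * σ (y / x)) • f.v σ
    congr 1
    rw [← map_mul, mul_div_cancel₀ _ hx0]
  have h2 : g = A.ι (y / x) := by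
    by_contra hcon
    have h4 := hs.bij P (hg.sub (hf.isEnd (y / x))) (sub_ne_zero.2 hcon)
    have h5 : (g - A.ι (y / x)) x0 = (g - A.ι (y / x)) 0 := by
      rw [map_zero, LinearMap.sub_apply, h1, sub_self]
    exact hne (congrArg (fun t : S.cx A.H => (t : S.W)) (h4 h5))
  rw [h2, ← map_mul, ← map_mul, mul_comm]

/-- The periods of a triple are determinants of periods. -/
theorem Attached.detPeriod (hf : Attached A f) (σ : F →+* ℂ) :
    IsDetPeriod A.ι σ (f.c σ) := by
  classical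
  have hspan : ∀ t : ℂ, t ≠ 0 →
      Submodule.span ℂ (Set.range fun _ : Fin 1 => t • f.v σ) = eig A.ι σ := by
    intro t ht
    apply le_antisymm
    · rw [Submodule.span_le]
      rintro _ ⟨i, rfl⟩
      exact Submodule.smul_mem _ _ ((mem_eig A.ι).2 (hf.line σ))
    · intro w hw
      obtain ⟨s, rfl⟩ := hf.line_eq (σ := σ) (show w ∈ A.line σ from (mem_eig A.ι).1 hw)
      have h1 : s • f.v σ = (s / t) • (t • f.v σ) := by
        rw [smul_smul, div_mul_cancel₀ _ ht]
      rw [h1]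
      exact Submodule.smul_mem _ _ (Submodule.subset_span ⟨0, rfl⟩)
  have hlin : ∀ t : ℂ, t ≠ 0 → LinearIndependent ℂ (fun _ : Fin 1 => t • f.v σ) := fun t ht =>
    linearIndependent_unique_iff.2 (smul_ne_zero ht (f.v_ne σ))
  refine ⟨1, fun _ => f.v σ, fun _ => f.c σ • f.v σ, fun _ _ => f.c σ, ?_, ?_,
    hlin _ (f.c_ne σ), hspan _ (f.c_ne σ), fun _ => ?_, fun _ => f.dR σ, fun i => ?_, ?_⟩
  · have h1 := hlin 1 one_ne_zero
    simp only [one_smul] at h1
    exact h1
  · have h1 := hspan 1 one_ne_zero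
    simp only [one_smul] at h1
    exact h1
  · rw [f.expand σ]
    refine Submodule.sum_mem _ fun i _ => ?_
    have h1 : (∑ τ : F →+* ℂ, τ (bas F i) • f.v τ) ∈ A.H := (hf.mem _).2 ⟨bas F i, rfl⟩
    exact Submodule.smul_mem _
      (⟨σ (bad F i), mem_algebraicClosure_iff.2 (emb_alg F σ _)⟩ : Qbar)
      (Submodule.subset_span h1)
  · rw [Fin.sum_univ_one]
  · exact (Matrix.det_fin_one (fun _ _ : Fin 1 => f.c σ)).symm

theorem Attached.detType (hf : Attached A f) (σ : F →+* ℂ) : detType A.ι σ = f.p σ := by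
  classical
  have hline : ∀ w ∈ eig A.ι σ, ∃ t : ℂ, w = t • f.v σ := fun w hw =>
    hf.line_eq (σ := σ) ((mem_eig A.ι).1 hw)
  have hv : f.v σ ∈ eig A.ι σ := (mem_eig A.ι).2 (hf.line σ)
  have hp : f.p σ ≤ S.wt := by
    by_contra h
    push Not at h
    have h1 := f.hdg σ
    rw [S.hodge_large _ h, Submodule.mem_bot] at h1
    exact f.v_ne σ h1
  unfold GD.detType
  rw [Finset.sum_eq_single (f.p σ)]
  · have h1 : (eig A.ι σ ⊓ S.hodge (f.p σ) : Submodule ℂ S.W) = Submodule.span ℂ {f.v σ} := by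
      apply le_antisymm
      · rintro w ⟨hw, -⟩
        obtain ⟨t, rfl⟩ := hline w hw
        exact Submodule.smul_mem _ _ (Submodule.mem_span_singleton_self _)
      · rw [Submodule.span_singleton_le_iff_mem]
        exact ⟨hv, f.hdg σ⟩
    rw [h1, finrank_span_singleton (f.v_ne σ), mul_one]
  · intro q _ hq
    have h1 : (eig A.ι σ ⊓ S.hodge q : Submodule ℂ S.W) = ⊥ := by
      rw [Submodule.eq_bot_iff]
      rintro w ⟨hw, hwq⟩
      obtain ⟨t, rfl⟩ := hline w hw
      by_contra hne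
      have ht : t ≠ 0 := fun h => hne (by rw [h, zero_smul])
      exact hq (S.hodge_eq hne hwq (Submodule.smul_mem _ t (f.hdg σ)))
    rw [h1, finrank_bot, mul_zero]
  · intro h
    exact absurd (Finset.mem_range.2 (by omega)) h

/-- The reflection formula for the periods of a simple self conjugate triple. -/
theorem triple_refl (P : Pol S) (A : Adm S F) (hs : IsSimple S A.H) (hc : SelfConj S A.H)
    (hG : IsGalois ℚ F) (hcomm : ∀ x y : (F ≃ₐ[ℚ] F), x * y = y * x) (e : F →+* ℂ) :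
    ∃ u : F ≃ₐ[ℚ] F, u * u = 1 ∧ ∀ σ : F →+* ℂ,
      (∀ q, A.line σ ≤ S.hodge q → A.line (σ.comp (u : F →+* F)) ≤ S.hodge q) ∧
      ∀ z z', A.IsPeriod σ z → A.IsPeriod (σ.comp (u : F →+* F)) z' →
        Sim (starRingEnd ℂ z) z' := by
  obtain ⟨p, hp⟩ := A.exists_type
  obtain ⟨f, hf, hfp⟩ := A.exists_fam p hp
  obtain ⟨u, hu, h⟩ := refl_gen A.ι P hs hc hG hcomm e (hf.central P hs)
  refine ⟨u, hu, fun σ => ⟨fun q hq => ?_, fun z z' hz hz' => ?_⟩⟩
  · have h1 := (h σ).1
    rw [hf.detType, hf.detType, hfp] at h1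
    have h2 : p σ = q := by
      have h3 : f.v σ ∈ S.hodge (p σ) := hp σ (hf.line σ)
      exact S.hodge_eq (f.v_ne σ) h3 (hq (hf.line σ))
    rw [← h2, ← h1]
    exact hp _
  · have h1 := (h σ).2 _ _ (hf.detPeriod σ) (hf.detPeriod _)
    have h2 := hf.period_sim hz
    have h3 := hf.period_sim hz'
    have h4 : Sim (starRingEnd ℂ z) (starRingEnd ℂ (f.c σ)) := by
      refine ⟨(map_ne_zero _).2 h2.1, (map_ne_zero _).2 h2.2.1, ?_⟩
      have h5 := isAlgebraic_conj h2.2.2
      rwa [map_div₀] at h5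
    exact (h4.trans h1).trans h3.symm

end GD
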