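import Pool.Agent.H46.GP.Core

/-!
# The lines of an admissible triple are pure
-/

noncomputable section

namespace GD

open Complex Module NumberField

variable {S : Str} {F : Type} [Field F] [NumberField F]

/-- The Hodge projectors commute with the action. -/
theorem Adm.hpr_comm (A : Adm S F) (p : ℕ) (a : F) (x : S.cx A.H)
    (h : hpr S p (x : S.W) ∈ S.cx A.H) :
    hpr S p (A.ι a x : S.W) = (A.ι a ⟨hpr S p x, h⟩ : S.W) := by
  obtain ⟨u, hu1, hu2, hxu⟩ := hodge_comp A.sub_hodge x.2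
  have h1 : x = ∑ q ∈ Finset.range (S.wt + 1), ⟨u q, hu1 q⟩ := by
    apply Subtype.ext
    rw [AddSubmonoidClass.coe_finsetSum]
    exact hxu
  have h2 : hpr S p (x : S.W) = if p ∈ Finset.range (S.wt + 1) then u p else 0 := by
    rw [hxu, hpr_sum hu2]
  have h3 : (A.ι a x : S.W) = ∑ q ∈ Finset.range (S.wt + 1), (A.ι a ⟨u q, hu1 q⟩ : S.W) := by
    conv_lhs => rw [h1, map_sum, AddSubmonoidClass.coe_finsetSum]
  rw [h3, hpr_sum (fun q => A.ι_hodge a q ⟨u q, hu1 q⟩ (hu2 q))]
  by_cases hp : p ∈ Finset.range (S.wt + 1)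
  · rw [if_pos hp] at h2 ⊢
    have h4 : (⟨hpr S p x, h⟩ : S.cx A.H) = ⟨u p, hu1 p⟩ := Subtype.ext h2
    rw [h4]
  · rw [if_neg hp] at h2 ⊢
    have h4 : (⟨hpr S p x, h⟩ : S.cx A.H) = 0 := Subtype.ext h2
    rw [h4, map_zero]
    rfl

/-- Every line of an admissible triple lies in one Hodge piece. -/
theorem Adm.exists_type (A : Adm S F) : ∃ p, A.HasType p := by
  classical
  have : Module.Finite ℚ A.H := finite_of_rank A.H A.rank
  choose ω hω using A.dR
  obtain ⟨α, hα⟩ := Field.exists_primitive_element ℚ F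
  have hinj : Function.Injective (fun σ : F →+* ℂ => σ α) := by
    intro σ τ h
    have h1 : (RingHom.equivRatAlgHom F ℂ σ) = (RingHom.equivRatAlgHom F ℂ τ) := by
      apply (Field.primitive_element_iff_algHom_eq_of_eval' ℚ ℂ
        (fun x => IsAlgClosed.splits _) α).1 hα
      simpa [RingHom.equivRatAlgHom_apply] using h
    exact (RingHom.equivRatAlgHom F ℂ).injective h1
  have hlin : LinearIndependent ℂ ω := by
    apply Module.End.eigenvectors_linearIndependent' (A.ι α) (fun σ => σ α) hinj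
    intro σ
    refine ⟨?_, fun h => (hω σ).1 (congrArg Subtype.val h)⟩
    rw [Module.End.mem_eigenspace_iff]
    exact (hω σ).2.2 α
  have hcard : Fintype.card (F →+* ℂ)
      = Module.finrank ℂ (Submodule.span ℂ (A.H : Set S.W)) := by
    rw [finrank_span S A.H A.le, A.rank, card_emb]
  have : Nonempty (F →+* ℂ) := by
    rw [← Fintype.card_pos_iff, card_emb]
    exact Module.finrank_pos
  let b := basisOfLinearIndependentOfCardEqFinrank hlin hcard
  have hb : ∀ σ, b σ = ω σ := fun σ => by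
    simp [b]
  have hline : ∀ (σ : F →+* ℂ) (x : S.cx A.H), Eigen A.ι σ x → ∃ t : ℂ, x = t • ω σ := by
    intro σ x hx
    have h1 : x = ∑ τ, b.repr x τ • ω τ := by
      have := (b.sum_repr x).symm
      simpa only [hb] using this
    have h2 : ∑ τ, (b.repr x τ * (τ α - σ α)) • ω τ = 0 := by
      have h3 : A.ι α x = ∑ τ, b.repr x τ • (τ α • ω τ) := by
        conv_lhs => rw [h1, map_sum]
        refine Finset.sum_congr rfl fun τ _ => ?_
        rw [map_smul, (hω τ).2.2 α]
      have h4 : σ α • x = ∑ τ, σ α • (b.repr x τ • ω τ) := by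
        conv_lhs => rw [h1, Finset.smul_sum]
      simp only [mul_sub, sub_smul, Finset.sum_sub_distrib]
      rw [sub_eq_zero]
      have h5 : ∑ τ, (b.repr x τ * τ α) • ω τ = A.ι α x := by
        rw [h3]
        exact Finset.sum_congr rfl fun τ _ => mul_smul _ _ _
      have h6 : ∑ τ, (b.repr x τ * σ α) • ω τ = σ α • x := by
        rw [h4]
        exact Finset.sum_congr rfl fun τ _ => by rw [mul_comm, mul_smul]
      rw [h5, h6]
      exact hx α
    have h3 : ∀ τ, τ ≠ σ → b.repr x τ = 0 := by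
      intro τ hτ
      have h4 := Fintype.linearIndependent_iff.1 hlin _ h2 τ
      refine (mul_eq_zero.1 h4).resolve_right (sub_ne_zero.2 fun h => hτ (hinj h))
    refine ⟨b.repr x σ, ?_⟩
    conv_lhs => rw [h1]
    refine Finset.sum_eq_single σ (fun τ _ hτ => ?_) (fun h => absurd (Finset.mem_univ σ) h)
    rw [h3 τ hτ, zero_smul]
  have hst : ∀ p, ∀ x ∈ S.cx A.H, hpr S p x ∈ S.cx A.H := fun p => hpr_stable A.sub_hodge p
  have hpiece : ∀ σ, ∃ p, (ω σ : S.W) ∈ S.hodge p := by
    intro σ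
    obtain ⟨u, hu1, hu2, hxu⟩ := hodge_comp A.sub_hodge (ω σ).2
    have h0 : ∃ p ∈ Finset.range (S.wt + 1), u p ≠ 0 := by
      by_contra hcon
      push Not at hcon
      apply (hω σ).1
      rw [hxu]
      exact Finset.sum_eq_zero hcon
    obtain ⟨p, hp, hne⟩ := h0
    refine ⟨p, ?_⟩
    have h1 : hpr S p (ω σ : S.W) = u p := by
      rw [hxu, hpr_sum hu2, if_pos hp]
    obtain ⟨t, ht⟩ := hline σ ⟨hpr S p (ω σ : S.W), hst p _ (ω σ).2⟩ (by
      intro a
      apply Subtype.ext
      rw [← A.hpr_comm p a (ω σ) (hst p _ (ω σ).2), (hω σ).2.2 a, Submodule.coe_smul,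
        Submodule.coe_smul, map_smul])
    have h2 : u p = t • (ω σ : S.W) := by
      rw [← h1]
      exact congrArg Subtype.val ht
    have ht0 : t ≠ 0 := by
      rintro rfl
      rw [zero_smul] at h2
      exact hne h2
    have h3 : (ω σ : S.W) = t⁻¹ • u p := by
      rw [h2, smul_smul, inv_mul_cancel₀ ht0, one_smul]
    rw [h3]
    exact (S.hodge p).smul_mem _ (hu2 p)
  choose p hp using hpiece
  refine ⟨p, fun σ w hw => ?_⟩
  obtain ⟨hm, he⟩ := hw
  obtain ⟨t, ht⟩ := hline σ ⟨w, hm⟩ he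
  have h1 : w = t • (ω σ : S.W) := congrArg Subtype.val ht
  rw [h1]
  exact (S.hodge (p σ)).smul_mem _ (hp σ)

end GD
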